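import Pool.Agent.Helper73.AltS.Dec

/-!
# Counting multiply perfect numbers up to `x`

A number is determined by its multiplicity and the list of its exponents; each exponent carries a
flag which says whether the prime is at most `y`. There are at most `y` flagged letters.
-/

namespace Pool.Agent.Helper73.AltS

open Finset

variable {P : Finset ℕ} {a s : ℕ → ℕ} {k : ℕ}

theorem exists_flag (h : Dat P a s k) (hs : ∀ p ∈ P, s p = (altPow p (a p)).toNat) (y : ℕ) :
    ∀ (m : ℕ) (U : Finset ℕ), U ⊆ P → #U = m → ∃ l : List (ℕ × Bool),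
      dec k (∏ p ∈ P \ U, p ^ a p) (∏ p ∈ P \ U, s p) (l.map Prod.fst) = ∏ p ∈ P, p ^ a p ∧
        l.length = #U ∧ l.countP (fun x => x.2) ≤ #(U.filter (· ≤ y)) ∧
          (l.map fun x => if x.2 then 1 else y ^ x.1).prod ≤ ∏ p ∈ U, p ^ a p ∧
            ∀ x ∈ l, ∃ p ∈ P, x.1 = a p := by
  intro m
  induction m with
  | zero =>
    intro U hU hm
    have h0 : U = ∅ := card_eq_zero.1 hm
    subst h0
    refine ⟨[], ?_, rfl, by simp, by simp, by simp⟩
    rw [sdiff_empty]
    rfl
  | succ m ih =>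
    intro U hU hm
    have hne : U.Nonempty := card_pos.1 (by omega)
    have hq := np_mem h hU hne
    obtain ⟨q, hqd⟩ : ∃ q, q = np k (∏ p ∈ P \ U, p ^ a p) (∏ p ∈ P \ U, s p) := ⟨_, rfl⟩
    rw [← hqd] at hq
    have hcard : #(U.erase q) = m := by rw [card_erase_of_mem hq]; omega
    obtain ⟨l, h1, h2, h3, h4, h5⟩ := ih (U.erase q) ((erase_subset _ _).trans hU) hcard
    have hsd : P \ U.erase q = insert q (P \ U) := by
      ext x
      simp only [mem_sdiff, mem_erase, mem_insert]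
      by_cases hx : x = q
      · subst hx
        simp [hU hq]
      · simp [hx]
    have hqn : q ∉ P \ U := fun hx => (mem_sdiff.1 hx).2 hq
    rw [hsd, prod_insert hqn, prod_insert hqn] at h1
    refine ⟨(a q, decide (q ≤ y)) :: l, ?_, ?_, ?_, ?_, ?_⟩
    · rw [List.map_cons, dec, ← hqd, ← hs q (hU hq), mul_comm _ (q ^ a q), mul_comm _ (s q)]
      exact h1
    · rw [List.length_cons, h2, hcard, hm]
    · rw [List.countP_cons]
      by_cases hy : q ≤ y
      · have h6 : (U.erase q).filter (· ≤ y) = (U.filter (· ≤ y)).erase q := by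
          rw [filter_erase]
        have h7 : q ∈ U.filter (· ≤ y) := mem_filter.2 ⟨hq, hy⟩
        rw [h6, card_erase_of_mem h7] at h3
        have h8 := card_pos.2 ⟨q, h7⟩
        simp only [hy, decide_true, if_true]
        omega
      · simp only [hy, decide_false, Bool.false_eq_true, if_false, add_zero]
        exact h3.trans (card_le_card (filter_subset_filter _ (erase_subset _ _)))
    · rw [List.map_cons, List.prod_cons, ← mul_prod_erase U _ hq]
      refine Nat.mul_le_mul ?_ h4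
      by_cases hy : q ≤ y
      · simp only [hy, decide_true, if_true]
        exact Nat.one_le_pow _ _ (h.prime q (hU hq)).pos
      · simp only [hy, decide_false, Bool.false_eq_true, if_false]
        exact Nat.pow_le_pow_left (by omega) _
    · intro x hx
      rcases List.mem_cons.1 hx with hx | hx
      · exact ⟨q, hU hq, by rw [hx]⟩
      · exact h5 x hx

/-- the code of a multiply perfect number up to `x` -/
theorem exists_code2 {n x : ℕ} (hn : IsPerf n) (hnx : n ≤ x) (y : ℕ) :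
    ∃ (k : ℕ) (l : List (ℕ × Bool)), dec k 1 1 (l.map Prod.fst) = n ∧ k ≤ Nat.log 2 x + 1 ∧
      l.length ≤ Nat.log 2 x ∧ l.countP (fun x => x.2) ≤ y ∧
        (l.map fun x => if x.2 then 1 else y ^ x.1).prod ≤ x ∧
          ∀ z ∈ l, 1 ≤ z.1 ∧ z.1 ≤ Nat.log 2 x := by
  obtain ⟨k, _, h⟩ := dat_of_perf hn
  have hn0 : n ≠ 0 := by have := hn.1; omega
  have hx0 : x ≠ 0 := by have := hn.1; omega
  obtain ⟨l, h1, h2, h3, h4, h5⟩ := exists_flag h (fun _ _ => rfl) y _ n.primeFactors
    Subset.rfl rfl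
  have hprod : ∏ p ∈ n.primeFactors, p ^ n.factorization p = n :=
    Nat.prod_factorization_pow_eq_self hn0
  rw [sdiff_self, bot_eq_empty, prod_empty, prod_empty, hprod] at h1
  rw [hprod] at h4
  have hpr : ∀ p ∈ n.primeFactors, 2 ≤ p := fun p hp => (Nat.prime_of_mem_primeFactors hp).two_le
  have hcard : #n.primeFactors ≤ Nat.log 2 x := by
    rw [Nat.le_log_iff_pow_le (by norm_num) hx0]
    calc 2 ^ #n.primeFactors = ∏ p ∈ n.primeFactors, 2 := by rw [prod_const]
      _ ≤ ∏ p ∈ n.primeFactors, p := prod_le_prod' hpr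
      _ ≤ n := Nat.le_of_dvd (Nat.pos_of_ne_zero hn0) (Nat.prod_primeFactors_dvd n)
      _ ≤ x := hnx
  refine ⟨k, l, h1, (k_le h).trans (by omega), by omega, ?_, h4.trans hnx, ?_⟩
  · refine h3.trans ?_
    have h6 : n.primeFactors.filter (· ≤ y) ⊆ Finset.Icc 1 y := by
      intro p hp
      rw [mem_filter] at hp
      exact Finset.mem_Icc.2 ⟨by have := hpr p hp.1; omega, hp.2⟩
    have h7 := card_le_card h6
    rwa [Nat.card_Icc, Nat.add_sub_cancel] at h7
  · intro z hz
    obtain ⟨p, hp, hzp⟩ := h5 z hz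
    rw [hzp]
    refine ⟨h.one_le p hp, ?_⟩
    rw [Nat.le_log_iff_pow_le (by norm_num) hx0]
    show 2 ^ n.factorization p ≤ x
    calc 2 ^ n.factorization p ≤ p ^ n.factorization p := Nat.pow_le_pow_left (hpr p hp) _
      _ ≤ n := Nat.ordProj_le p hn0
      _ ≤ x := hnx

section lists

variable {α : Type*} [DecidableEq α]

/-- the lists of length `r` over the alphabet `A` -/
def LL (A : Finset α) : ℕ → Finset (List α)
  | 0 => {[]}
  | r + 1 => (A ×ˢ LL A r).image fun x => x.1 :: x.2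

theorem mem_LL (A : Finset α) : ∀ (l : List α), (∀ z ∈ l, z ∈ A) → l ∈ LL A l.length := by
  intro l
  induction l with
  | nil =>
    intro _
    exact mem_singleton_self _
  | cons b l ih =>
    intro h
    show b :: l ∈ (A ×ˢ LL A l.length).image fun x => x.1 :: x.2
    rw [mem_image]
    exact ⟨(b, l), mem_product.2 ⟨h b (List.mem_cons_self), ih fun z hz =>
      h z (List.mem_cons_of_mem _ hz)⟩, rfl⟩

theorem sum_LL (A : Finset α) (u : α → ℝ) : ∀ r : ℕ,
    ∑ l ∈ LL A r, (l.map u).prod = (∑ b ∈ A, u b) ^ r := by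
  intro r
  induction r with
  | zero =>
    show ∑ l ∈ ({[]} : Finset (List α)), (l.map u).prod = _
    simp
  | succ r ih =>
    show ∑ l ∈ (A ×ˢ LL A r).image (fun x => x.1 :: x.2), (l.map u).prod = _
    rw [sum_image, sum_product]
    · have h1 : ∀ b ∈ A, ∑ l ∈ LL A r, (((b, l) : α × List α).1 :: (b, l).2 |>.map u).prod =
          u b * (∑ c ∈ A, u c) ^ r := by
        intro b _
        rw [← ih, mul_sum]
        exact sum_congr rfl fun l _ => by simp
      rw [sum_congr rfl h1, ← sum_mul, pow_succ, mul_comm]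
    · intro x _ z _ hxz
      have h1 : x.1 :: x.2 = z.1 :: z.2 := hxz
      rw [List.cons.injEq] at h1
      exact Prod.ext h1.1 h1.2

end lists

/-- the weight of a letter -/
noncomputable def uu (L : ℕ) (z : ℕ × Bool) : ℝ := if z.2 then 1 / (8 * L) else (5 / 12) ^ z.1

theorem uu_nonneg (L : ℕ) (z : ℕ × Bool) : 0 ≤ uu L z := by
  unfold uu
  split_ifs <;> positivity

theorem sum_uu {L : ℕ} (hL : 1 ≤ L) :
    ∑ z ∈ (Finset.Icc 1 L) ×ˢ (univ : Finset Bool), uu L z ≤ 47 / 56 := by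
  have h1 : ∑ z ∈ (Finset.Icc 1 L) ×ˢ (univ : Finset Bool), uu L z =
      ∑ c ∈ Finset.Icc 1 L, (1 / (8 * (L : ℝ)) + (5 / 12) ^ c) := by
    rw [sum_product]
    refine sum_congr rfl fun c _ => ?_
    simp [uu]
  have hL' : (0 : ℝ) < L := by exact_mod_cast hL
  have h2 : ∑ c ∈ Finset.Icc 1 L, (1 / (8 * (L : ℝ))) = 1 / 8 := by
    rw [sum_const, Nat.card_Icc, Nat.add_sub_cancel, nsmul_eq_mul]
    field_simp
  have h3 : ∀ m : ℕ, ∑ c ∈ Finset.Icc 1 m, ((5 : ℝ) / 12) ^ c ≤ 5 / 7 - 5 / 7 * (5 / 12) ^ m := by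
    intro m
    induction m with
    | zero => simp
    | succ m ih =>
      rw [sum_Icc_succ_top (by omega), pow_succ]
      linarith
  have h4 := h3 L
  have h5 : (0 : ℝ) ≤ (5 / 12) ^ L := by positivity
  rw [h1, sum_add_distrib, h2]
  linarith

/-- the inequality for one code -/
theorem one_le_weight {x y L : ℕ} (hL : 1 ≤ L) (hy : 2 ≤ y) (hx : 1 ≤ x)
    (l : List (ℕ × Bool)) (h1 : l.countP (fun x => x.2) ≤ y)
    (h2 : (l.map fun x => if x.2 then 1 else y ^ x.1).prod ≤ x) :
    (1 : ℝ) ≤ (x : ℝ) ^ (Real.log (12 / 5) / Real.log y) * (8 * (L : ℝ)) ^ y *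
      (l.map (uu L)).prod := by
  obtain ⟨s, hs⟩ : ∃ s : ℝ, s = Real.log (12 / 5) / Real.log y := ⟨_, rfl⟩
  rw [← hs]
  have hy' : (2 : ℝ) ≤ y := by exact_mod_cast hy
  have hlogy : 0 < Real.log y := Real.log_pos (by linarith)
  have hs0 : 0 ≤ s := by
    rw [hs]
    exact div_nonneg (Real.log_nonneg (by norm_num)) hlogy.le
  have hys : (y : ℝ) ^ s = 12 / 5 := by
    rw [Real.rpow_def_of_pos (by linarith), hs, mul_div_cancel₀ _ hlogy.ne',
      Real.exp_log (by norm_num)]
  have hL' : (1 : ℝ) ≤ L := by exact_mod_cast hL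
  -- the identity for all lists
  have key : ∀ l : List (ℕ × Bool),
      (((l.map fun x => if x.2 then 1 else y ^ x.1).prod : ℕ) : ℝ) ^ s *
        (8 * (L : ℝ)) ^ (l.countP (fun x => x.2)) * (l.map (uu L)).prod = 1 := by
    intro l
    induction l with
    | nil => simp
    | cons z l ih =>
      rw [List.map_cons, List.prod_cons, List.map_cons, List.prod_cons, List.countP_cons]
      obtain ⟨c, b⟩ := z
      cases b
      · have e1 : uu L (c, false) = (5 / 12) ^ c := by simp [uu]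
        rw [e1]
        simp only [Bool.false_eq_true, if_false, add_zero, Nat.cast_mul, Nat.cast_pow]
        rw [Real.mul_rpow (by positivity) (Nat.cast_nonneg _)]
        have e2 : ((y : ℝ) ^ c) ^ s = (12 / 5) ^ c := by
          rw [← hys, ← Real.rpow_natCast, ← Real.rpow_mul (by linarith), ← Real.rpow_natCast,
            ← Real.rpow_mul (by linarith), mul_comm]
        have e3 : ((12 : ℝ) / 5) ^ c * (5 / 12) ^ c = 1 := by
          rw [← mul_pow]
          norm_num
        rw [e2]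
        linear_combination (((12 : ℝ) / 5) ^ c * (5 / 12) ^ c) * ih + e3
      · have e1 : uu L (c, true) = 1 / (8 * (L : ℝ)) := by simp [uu]
        rw [e1]
        simp only [if_true, one_mul, pow_succ]
        have e3 : (8 * (L : ℝ)) * (1 / (8 * (L : ℝ))) = 1 := by
          field_simp
        linear_combination ((8 * (L : ℝ)) * (1 / (8 * (L : ℝ)))) * ih + e3
  have hprod : 0 ≤ (l.map (uu L)).prod := by
    refine List.prod_nonneg fun z hz => ?_
    obtain ⟨w, _, hw⟩ := List.mem_map.1 hz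
    rw [← hw]
    exact uu_nonneg L w
  have h3 : (((l.map fun x => if x.2 then 1 else y ^ x.1).prod : ℕ) : ℝ) ^ s ≤ (x : ℝ) ^ s :=
    Real.rpow_le_rpow (Nat.cast_nonneg _) (by exact_mod_cast h2) hs0
  have h4 : (8 * (L : ℝ)) ^ (l.countP (fun x => x.2)) ≤ (8 * (L : ℝ)) ^ y :=
    pow_le_pow_right₀ (by linarith) h1
  rw [← key l]
  exact mul_le_mul_of_nonneg_right (mul_le_mul h3 h4 (by positivity) (by positivity)) hprod

open Classical in
/-- the counting inequality -/
theorem count_le {x y : ℕ} (hx : 2 ≤ x) (hy : 2 ≤ y) :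
    (#((Finset.Icc 1 x).filter IsPerf) : ℝ) ≤
      7 * (Nat.log 2 x + 2) * (8 * (Nat.log 2 x : ℝ)) ^ y *
        (x : ℝ) ^ (Real.log (12 / 5) / Real.log y) := by
  obtain ⟨L, hL⟩ : ∃ L, L = Nat.log 2 x := ⟨_, rfl⟩
  have hL1 : 1 ≤ L := by
    rw [hL, Nat.le_log_iff_pow_le (by norm_num) (by omega)]
    omega
  have hL' : (1 : ℝ) ≤ L := by exact_mod_cast hL1
  rw [← hL]
  obtain ⟨S, hS⟩ : ∃ S, S = (Finset.Icc 1 x).filter IsPerf := ⟨_, rfl⟩
  rw [← hS]
  have hex : ∀ n : ℕ, ∃ (z : ℕ × (Σ _ : ℕ, List (ℕ × Bool))), n ∈ S →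
      (dec z.1 1 1 (z.2.2.map Prod.fst) = n ∧
        z ∈ (range (L + 2)) ×ˢ ((range (L + 1)).sigma fun r =>
          LL ((Finset.Icc 1 L) ×ˢ (univ : Finset Bool)) r) ∧
        (1 : ℝ) ≤ (x : ℝ) ^ (Real.log (12 / 5) / Real.log y) * (8 * (L : ℝ)) ^ y *
          (z.2.2.map (uu L)).prod) := by
    intro n
    by_cases hn : n ∈ S
    · rw [hS, mem_filter, Finset.mem_Icc] at hn
      obtain ⟨k, l, e1, e2, e3, e4, e5, e6⟩ := exists_code2 hn.2 hn.1.2 y
      rw [← hL] at e2 e3 e6
      refine ⟨(k, ⟨l.length, l⟩), fun _ => ⟨e1, ?_, one_le_weight hL1 hy (by omega) l e4 e5⟩⟩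
      rw [mem_product, mem_range, mem_sigma, mem_range]
      refine ⟨by omega, by show l.length < L + 1; omega, ?_⟩
      refine mem_LL _ l fun z hz => ?_
      rw [mem_product, Finset.mem_Icc]
      exact ⟨e6 z hz, mem_univ _⟩
    · exact ⟨(0, ⟨0, []⟩), fun hn' => absurd hn' hn⟩
  choose Z hZ using hex
  have hinj : Set.InjOn Z S := by
    intro n hn m hm hnm
    rw [← (hZ n hn).1, ← (hZ m hm).1, hnm]
  obtain ⟨c, hc⟩ : ∃ c : ℝ, c = (x : ℝ) ^ (Real.log (12 / 5) / Real.log y) *
    (8 * (L : ℝ)) ^ y := ⟨_, rfl⟩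
  have hc0 : 0 ≤ c := by
    rw [hc]
    positivity
  have hnn : ∀ l : List (ℕ × Bool), 0 ≤ (l.map (uu L)).prod := fun l =>
    List.prod_nonneg fun z hz => by
      obtain ⟨w, _, hw⟩ := List.mem_map.1 hz
      rw [← hw]
      exact uu_nonneg L w
  have hW := sum_uu hL1
  have hW0 : 0 ≤ ∑ z ∈ (Finset.Icc 1 L) ×ˢ (univ : Finset Bool), uu L z :=
    sum_nonneg fun z _ => uu_nonneg L z
  have hgeo : ∀ m : ℕ, ∑ r ∈ range m, (47 / 56 : ℝ) ^ r ≤ 7 - 56 / 9 * (47 / 56) ^ m := by
    intro m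
    induction m with
    | zero => norm_num
    | succ m ih =>
      rw [sum_range_succ, pow_succ]
      linarith
  calc (#S : ℝ) = ∑ n ∈ S, (1 : ℝ) := by simp
    _ ≤ ∑ n ∈ S, c * ((Z n).2.2.map (uu L)).prod := by
        refine sum_le_sum fun n hn => ?_
        rw [hc]
        exact (hZ n hn).2.2
    _ = ∑ z ∈ S.image Z, c * (z.2.2.map (uu L)).prod :=
        (sum_image (f := fun z : ℕ × (Σ _ : ℕ, List (ℕ × Bool)) =>
          c * (z.2.2.map (uu L)).prod) hinj).symm
    _ ≤ ∑ z ∈ (range (L + 2)) ×ˢ ((range (L + 1)).sigma fun r =>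
          LL ((Finset.Icc 1 L) ×ˢ (univ : Finset Bool)) r), c * (z.2.2.map (uu L)).prod := by
        refine sum_le_sum_of_subset_of_nonneg ?_ fun z _ _ => mul_nonneg hc0 (hnn _)
        intro z hz
        obtain ⟨n, hn, rfl⟩ := mem_image.1 hz
        exact (hZ n hn).2.1
    _ = (L + 2) * (c * ∑ r ∈ range (L + 1),
          (∑ z ∈ (Finset.Icc 1 L) ×ˢ (univ : Finset Bool), uu L z) ^ r) := by
        rw [sum_product]
        have e1 : ∀ k ∈ range (L + 2), ∑ z ∈ ((range (L + 1)).sigma fun r =>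
            LL ((Finset.Icc 1 L) ×ˢ (univ : Finset Bool)) r), c * (z.2.map (uu L)).prod =
              c * ∑ r ∈ range (L + 1),
                (∑ z ∈ (Finset.Icc 1 L) ×ˢ (univ : Finset Bool), uu L z) ^ r := by
          intro k _
          rw [sum_sigma, mul_sum]
          refine sum_congr rfl fun r _ => ?_
          rw [← mul_sum, sum_LL]
        rw [sum_congr rfl e1, sum_const, card_range, nsmul_eq_mul]
        push_cast
        ring
    _ ≤ (L + 2) * (c * 7) := by
        refine mul_le_mul_of_nonneg_left (mul_le_mul_of_nonneg_left ?_ hc0) (by positivity)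
        calc ∑ r ∈ range (L + 1), (∑ z ∈ (Finset.Icc 1 L) ×ˢ (univ : Finset Bool), uu L z) ^ r
            ≤ ∑ r ∈ range (L + 1), (47 / 56 : ℝ) ^ r :=
              sum_le_sum fun r _ => pow_le_pow_left₀ hW0 hW r
          _ ≤ 7 - 56 / 9 * (47 / 56) ^ (L + 1) := hgeo _
          _ ≤ 7 := by
              have : (0 : ℝ) ≤ 56 / 9 * (47 / 56) ^ (L + 1) := by positivity
              linarith
    _ = _ := by
        rw [hc]
        ring

end Pool.Agent.Helper73.AltS
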