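import Pool.Agent.Helper73.AltS.Ind

/-!
# A multiply perfect number is determined by its multiplicity and a list of exponents
-/

namespace Pool.Agent.Helper73.AltS

open Finset

/-- the next prime factor -/
def np (k A S : ℕ) : ℕ := Nat.minFac (k * S / Nat.gcd (k * S) A)

/-- reconstruction of the number from the exponents -/
def dec (k : ℕ) : ℕ → ℕ → List ℕ → ℕ
  | A, _, [] => A
  | A, S, c :: l => dec k (A * (np k A S) ^ c) (S * (altPow (np k A S) c).toNat) l

variable {P : Finset ℕ} {a s : ℕ → ℕ} {k : ℕ}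

theorem np_mem (h : Dat P a s k) {U : Finset ℕ} (hU : U ⊆ P) (hne : U.Nonempty) :
    np k (∏ p ∈ P \ U, p ^ a p) (∏ p ∈ P \ U, s p) ∈ U := by
  obtain ⟨A, hA⟩ : ∃ A, A = ∏ p ∈ P \ U, p ^ a p := ⟨_, rfl⟩
  obtain ⟨S, hS⟩ : ∃ S, S = ∏ p ∈ P \ U, s p := ⟨_, rfl⟩
  rw [← hA, ← hS]
  have hA0 : 0 < A := by
    rw [hA]
    exact prod_pos fun p hp => Nat.pow_pos (h.prime p (mem_sdiff.1 hp).1).pos
  have hid : k * S * ∏ p ∈ U, s p = A * ∏ p ∈ U, p ^ a p := by
    have e1 : (∏ p ∈ P \ U, s p) * ∏ p ∈ U, s p = ∏ p ∈ P, s p := prod_sdiff hU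
    have e2 : (∏ p ∈ P \ U, p ^ a p) * ∏ p ∈ U, p ^ a p = ∏ p ∈ P, p ^ a p := prod_sdiff hU
    rw [hA, hS, e2, ← h.eq, ← e1]
    ring
  have hlt : ∏ p ∈ U, s p < ∏ p ∈ U, p ^ a p :=
    prod_lt_prod_of_nonempty (fun p hp => s_pos (h.prime p (hU hp)).two_le
      (h.val p (hU hp))) (fun p hp => s_lt (h.prime p (hU hp)).two_le
        (h.one_le p (hU hp)) (h.val p (hU hp))) hne
  have hsU : 0 < ∏ p ∈ U, s p :=
    prod_pos fun p hp => s_pos (h.prime p (hU hp)).two_le (h.val p (hU hp))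
  have hkS : A < k * S := by
    by_contra hcon
    have h1 : k * S ≤ A := not_lt.1 hcon
    have h2 : k * S * ∏ p ∈ U, s p < A * ∏ p ∈ U, p ^ a p :=
      lt_of_le_of_lt (Nat.mul_le_mul_right _ h1) (Nat.mul_lt_mul_of_pos_left hlt hA0)
    exact h2.ne hid
  obtain ⟨g, hg⟩ : ∃ g, g = Nat.gcd (k * S) A := ⟨_, rfl⟩
  have hg0 : 0 < g := by
    rw [hg]
    exact Nat.gcd_pos_of_pos_right _ hA0
  obtain ⟨u, hu⟩ : g ∣ k * S := by rw [hg]; exact Nat.gcd_dvd_left _ _
  obtain ⟨w, hw⟩ : g ∣ A := by rw [hg]; exact Nat.gcd_dvd_right _ _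
  have hcop : Nat.Coprime u w := by
    have h1 := Nat.coprime_div_gcd_div_gcd (m := k * S) (n := A) (by rw [← hg]; exact hg0)
    rw [← hg, hu, hw, Nat.mul_div_cancel_left _ hg0, Nat.mul_div_cancel_left _ hg0] at h1
    exact h1
  have hnp : np k A S = u.minFac := by
    unfold np
    rw [← hg, hu, Nat.mul_div_cancel_left _ hg0]
  have hw0 : 0 < w := by
    rcases Nat.eq_zero_or_pos w with h0 | h0
    · rw [h0, mul_zero] at hw
      omega
    · exact h0
  have hu1 : u ≠ 1 := by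
    rintro rfl
    rw [hu, hw, mul_one] at hkS
    nlinarith
  have hdvd : u ∣ ∏ p ∈ U, p ^ a p := by
    have h1 : u * ∏ p ∈ U, s p = w * ∏ p ∈ U, p ^ a p := by
      rw [hu, hw, mul_assoc, mul_assoc] at hid
      exact Nat.eq_of_mul_eq_mul_left hg0 hid
    exact hcop.dvd_of_dvd_mul_left (h1 ▸ Nat.dvd_mul_right u _)
  have hq := Nat.minFac_prime hu1
  have hqd : u.minFac ∣ ∏ p ∈ U, p ^ a p := (Nat.minFac_dvd u).trans hdvd
  obtain ⟨p, hp, hpd⟩ := (Prime.dvd_finsetProd_iff hq.prime _).1 hqd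
  have h3 : u.minFac = p := (Nat.prime_dvd_prime_iff_eq hq (h.prime p (hU hp))).1
    (hq.dvd_of_dvd_pow hpd)
  rw [hnp, h3]
  exact hp

theorem exists_list (h : Dat P a s k) (hs : ∀ p ∈ P, s p = (altPow p (a p)).toNat) :
    ∀ (m : ℕ) (U : Finset ℕ), U ⊆ P → #U = m → ∃ l : List ℕ,
      dec k (∏ p ∈ P \ U, p ^ a p) (∏ p ∈ P \ U, s p) l = ∏ p ∈ P, p ^ a p ∧ l.length = #U ∧
        l.sum = ∑ p ∈ U, a p := by
  intro m
  induction m with
  | zero =>
    intro U hU hm
    have h0 : U = ∅ := card_eq_zero.1 hm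
    subst h0
    refine ⟨[], ?_, rfl, rfl⟩
    rw [sdiff_empty]
    rfl
  | succ m ih =>
    intro U hU hm
    have hne : U.Nonempty := card_pos.1 (by omega)
    have hq := np_mem h hU hne
    obtain ⟨q, hqd⟩ : ∃ q, q = np k (∏ p ∈ P \ U, p ^ a p) (∏ p ∈ P \ U, s p) := ⟨_, rfl⟩
    rw [← hqd] at hq
    have hcard : #(U.erase q) = m := by rw [card_erase_of_mem hq]; omega
    obtain ⟨l, h1, h2, h3⟩ := ih (U.erase q) ((erase_subset _ _).trans hU) hcard
    have hsd : P \ U.erase q = insert q (P \ U) := by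
      ext x
      simp only [mem_sdiff, mem_erase, mem_insert]
      by_cases hx : x = q
      · subst hx
        simp [hU hq]
      · simp [hx]
    have hqn : q ∉ P \ U := fun hx => (mem_sdiff.1 hx).2 hq
    rw [hsd, prod_insert hqn, prod_insert hqn] at h1
    refine ⟨a q :: l, ?_, ?_, ?_⟩
    · rw [dec, ← hqd, ← hs q (hU hq), mul_comm _ (q ^ a q), mul_comm _ (s q)]
      exact h1
    · rw [List.length_cons, h2, hcard, hm]
    · rw [List.sum_cons, h3, ← add_sum_erase U a hq]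

theorem factorial_le_prod (S : Finset ℕ) (h : ∀ p ∈ S, 2 ≤ p) :
    (#S + 1).factorial ≤ ∏ p ∈ S, p := by
  induction S using Finset.induction_on_max with
  | empty => simp
  | insert M S hM ih =>
    have hMS : M ∉ S := fun hx => lt_irrefl _ (hM M hx)
    have hS : ∀ p ∈ S, 2 ≤ p := fun p hp => h p (mem_insert_of_mem hp)
    have hsub : S ⊆ Finset.Ico 2 M := fun p hp => Finset.mem_Ico.2 ⟨hS p hp, hM p hp⟩
    have hcard : #S ≤ M - 2 := by
      have := card_le_card hsub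
      rwa [Nat.card_Ico] at this
    have hM2 := h M (mem_insert_self _ _)
    rw [prod_insert hMS, card_insert_of_notMem hMS, Nat.factorial_succ]
    exact Nat.mul_le_mul (by omega) (ih hS)

theorem ratio_prod (S : Finset ℕ) (h : ∀ p ∈ S, 2 ≤ p) :
    ∏ p ∈ S, ((p : ℚ) / ((p : ℚ) - 1)) ≤ #S + 1 := by
  induction S using Finset.induction_on_max with
  | empty => simp
  | insert M S hM ih =>
    have hMS : M ∉ S := fun hx => lt_irrefl _ (hM M hx)
    have hS : ∀ p ∈ S, 2 ≤ p := fun p hp => h p (mem_insert_of_mem hp)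
    have hsub : S ⊆ Finset.Ico 2 M := fun p hp => Finset.mem_Ico.2 ⟨hS p hp, hM p hp⟩
    have hcard : #S ≤ M - 2 := by
      have := card_le_card hsub
      rwa [Nat.card_Ico] at this
    have hM2 := h M (mem_insert_self _ _)
    have h1 : ((#S : ℕ) : ℚ) + 2 ≤ M := by
      have : #S + 2 ≤ M := by omega
      exact_mod_cast this
    have h0 : (0 : ℚ) ≤ (#S : ℕ) := Nat.cast_nonneg _
    rw [prod_insert hMS, card_insert_of_notMem hMS]
    have h2 : (M : ℚ) / (M - 1) ≤ (#S + 2) / (#S + 1) := by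
      rw [div_le_div_iff₀ (by linarith) (by linarith)]
      nlinarith
    have h3 : (0 : ℚ) ≤ (M : ℚ) / (M - 1) := div_nonneg (by linarith) (by linarith)
    calc (M : ℚ) / (M - 1) * ∏ p ∈ S, ((p : ℚ) / ((p : ℚ) - 1))
        ≤ (#S + 2) / (#S + 1) * (#S + 1) :=
          mul_le_mul h2 (ih hS) (prod_nonneg fun p hp => by
            have := hS p hp
            have : (2 : ℚ) ≤ p := by exact_mod_cast this
            exact div_nonneg (by linarith) (by linarith)) (by positivity)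
      _ = ((#S + 1 : ℕ) : ℚ) + 1 := by
          rw [div_mul_cancel₀ _ (by positivity)]
          push_cast
          ring

theorem k_le (h : Dat P a s k) : k ≤ #P + 1 := by
  have h1 : (k : ℚ) = ∏ p ∈ P, ((p : ℚ) ^ a p / s p) := by
    have hs : (∏ p ∈ P, (s p : ℚ)) ≠ 0 := prod_ne_zero_iff.2 fun p hp => by
      have := s_pos (h.prime p hp).two_le (h.val p hp)
      positivity
    rw [prod_div_distrib, eq_div_iff hs]
    have h2 := congrArg (Nat.cast : ℕ → ℚ) h.eq
    push_cast at h2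
    exact h2
  have h2 : (k : ℚ) ≤ #P + 1 := by
    rw [h1]
    refine le_trans (prod_le_prod (fun p _ => by positivity) fun p hp => ?_)
      (ratio_prod P fun p hp => (h.prime p hp).two_le)
    exact f_le (h.prime p hp).two_le (h.one_le p hp) (h.val p hp)
  exact_mod_cast h2

/-- the code of a multiply perfect number -/
theorem exists_code {n : ℕ} (hn : IsPerf n) : ∃ (k : ℕ) (l : List ℕ), dec k 1 1 l = n ∧
    k ≤ l.length + 1 ∧ (l.length + 1).factorial * 2 ^ l.sum ≤ n ^ 2 := by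
  obtain ⟨k, _, h⟩ := dat_of_perf hn
  have hn0 : n ≠ 0 := by have := hn.1; omega
  obtain ⟨l, h1, h2, h3⟩ := exists_list h (fun _ _ => rfl) _ n.primeFactors Subset.rfl rfl
  have hprod : ∏ p ∈ n.primeFactors, p ^ n.factorization p = n :=
    Nat.prod_factorization_pow_eq_self hn0
  rw [sdiff_self, bot_eq_empty, prod_empty, prod_empty, hprod] at h1
  have hpr : ∀ p ∈ n.primeFactors, 2 ≤ p := fun p hp => (Nat.prime_of_mem_primeFactors hp).two_le
  refine ⟨k, l, h1, ?_, ?_⟩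
  · rw [h2]
    exact k_le h
  · have h4 : (l.length + 1).factorial ≤ n := by
      rw [h2]
      refine (factorial_le_prod _ hpr).trans ?_
      exact Nat.le_of_dvd (Nat.pos_of_ne_zero hn0) (Nat.prod_primeFactors_dvd n)
    have h5 : 2 ^ l.sum ≤ n := by
      rw [h3, ← prod_pow_eq_pow_sum]
      conv_rhs => rw [← hprod]
      exact prod_le_prod' fun p hp => Nat.pow_le_pow_left (hpr p hp) _
    rw [sq]
    exact Nat.mul_le_mul h4 h5

end Pool.Agent.Helper73.AltS
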