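import Mathlib

/-!
# The alternating sum of divisors function

`altPow p r = p^r - p^(r-1) + ... + (-1)^r` and the multiplicative function `altSigma`.
-/

namespace Pool.Agent.Helper73.AltS

/-- `σ̃(p^r) = ∑_{j ≤ r} (-1)^j p^(r-j)` -/
def altPow (p r : ℕ) : ℤ := ∑ j ∈ Finset.range (r + 1), (-1) ^ j * (p : ℤ) ^ (r - j)

/-- The multiplicative function `σ̃` with the values `altPow p r` at the prime powers. -/
def altSigma (n : ℕ) : ℤ := ∏ p ∈ n.primeFactors, altPow p (n.factorization p)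

/-- `n > 1` and `σ̃(n)` divides `n`: `n` is `σ̃`-`k`-perfect for some `k ≥ 2`. -/
def IsPerf (n : ℕ) : Prop := 1 < n ∧ altSigma n ∣ (n : ℤ)

theorem altPow_succ (p r : ℕ) : altPow p (r + 1) = p * altPow p r + (-1) ^ (r + 1) := by
  unfold altPow
  rw [Finset.sum_range_succ, Finset.mul_sum, Nat.sub_self, pow_zero, mul_one]
  congr 1
  refine Finset.sum_congr rfl fun j hj => ?_
  have hj' : j ≤ r := Nat.lt_succ_iff.1 (Finset.mem_range.1 hj)
  rw [Nat.succ_sub hj', pow_succ]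
  ring

theorem altPow_mul (p r : ℕ) :
    ((p : ℤ) + 1) * altPow p r = (p : ℤ) ^ (r + 1) + (-1) ^ r := by
  induction r with
  | zero => simp [altPow]
  | succ r ih =>
    rw [altPow_succ, mul_add, ← mul_assoc, mul_comm ((p : ℤ) + 1) (p : ℤ), mul_assoc, ih]
    ring

theorem altPow_pos {p : ℕ} (hp : 2 ≤ p) (r : ℕ) : 0 < altPow p r := by
  have h := altPow_mul p r
  have h1 : (2 : ℤ) ≤ (p : ℤ) ^ (r + 1) := by
    have h2 : 2 ≤ p ^ (r + 1) := le_trans hp (Nat.le_self_pow (Nat.succ_ne_zero r) p)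
    exact_mod_cast h2
  have h2 : (-1 : ℤ) ≤ (-1) ^ r := by
    rcases neg_one_pow_eq_or ℤ r with h | h <;> rw [h]
    norm_num
  have h3 : (0 : ℤ) < ((p : ℤ) + 1) * altPow p r := by
    rw [h]
    linarith
  have h4 : (0 : ℤ) < (p : ℤ) + 1 := by positivity
  by_contra h5
  have h6 : altPow p r ≤ 0 := not_lt.1 h5
  have h7 : ((p : ℤ) + 1) * altPow p r ≤ 0 := mul_nonpos_of_nonneg_of_nonpos h4.le h6
  linarith

/-- The data of a multiply perfect number: primes `p ∈ P`, exponents `a p`, `s p = σ̃(p^(a p))`. -/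
structure Dat (P : Finset ℕ) (a s : ℕ → ℕ) (k : ℕ) : Prop where
  prime : ∀ p ∈ P, p.Prime
  one_le : ∀ p ∈ P, 1 ≤ a p
  val : ∀ p ∈ P, ((p : ℤ) + 1) * (s p : ℤ) = (p : ℤ) ^ (a p + 1) + (-1) ^ (a p)
  eq : k * ∏ p ∈ P, s p = ∏ p ∈ P, p ^ a p

theorem dat_of_perf {n : ℕ} (h : IsPerf n) : ∃ k : ℕ, 1 ≤ k ∧
    Dat n.primeFactors (fun p => n.factorization p)
      (fun p => (altPow p (n.factorization p)).toNat) k := by
  have hn : n ≠ 0 := by have := h.1; omega
  have hpr : ∀ p ∈ n.primeFactors, p.Prime := fun p hp => Nat.prime_of_mem_primeFactors hp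
  have hs : ∀ p ∈ n.primeFactors, (((altPow p (n.factorization p)).toNat : ℕ) : ℤ) =
      altPow p (n.factorization p) := fun p hp =>
    Int.toNat_of_nonneg (altPow_pos (hpr p hp).two_le _).le
  obtain ⟨c, hc⟩ := h.2
  have hpos : 0 < altSigma n := Finset.prod_pos fun p hp => altPow_pos (hpr p hp).two_le _
  have hc0 : 0 < c := by
    have h1 : (0 : ℤ) < n := by exact_mod_cast Nat.pos_of_ne_zero hn
    rw [hc] at h1
    exact (mul_pos_iff_of_pos_left hpos).1 h1
  refine ⟨c.toNat, by omega, hpr, ?_, ?_, ?_⟩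
  · intro p hp
    exact (hpr p hp).factorization_pos_of_dvd hn (Nat.dvd_of_mem_primeFactors hp)
  · intro p hp
    show ((p : ℤ) + 1) * (((altPow p (n.factorization p)).toNat : ℕ) : ℤ) = _
    rw [hs p hp, altPow_mul]
  · have h1 : ((c.toNat * ∏ p ∈ n.primeFactors, (altPow p (n.factorization p)).toNat : ℕ) : ℤ) =
        (n : ℤ) := by
      rw [Nat.cast_mul, Int.toNat_of_nonneg hc0.le, Nat.cast_prod, Finset.prod_congr rfl hs, hc,
        mul_comm]
      rfl
    have h3 : ∏ p ∈ n.primeFactors, p ^ n.factorization p = n :=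
      Nat.prod_factorization_pow_eq_self hn
    show c.toNat * ∏ p ∈ n.primeFactors, (altPow p (n.factorization p)).toNat =
      ∏ p ∈ n.primeFactors, p ^ n.factorization p
    rw [h3]
    exact_mod_cast h1

end Pool.Agent.Helper73.AltS
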