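import Mathlib

/-!
# Powers of 2 and 3
-/

namespace Pool.Agent.Helper73.AltS

theorem pow_case1 {m l : ℕ} (h : 3 ^ l = 2 ^ m + 1) : m ≤ 3 := by
  by_contra hm
  have hm' : 4 ≤ m := by omega
  obtain ⟨c, hc⟩ : ∃ c, m = c + 4 := ⟨m - 4, by omega⟩
  obtain ⟨q, i, hi, hl⟩ : ∃ q i, i < 4 ∧ l = 4 * q + i := ⟨l / 4, l % 4, Nat.mod_lt _ (by norm_num),
    (Nat.div_add_mod l 4).symm⟩
  have h1 : 3 ^ l % 16 = 1 := by
    rw [h, hc, pow_add]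
    omega
  have h2 : 3 ^ l = 81 ^ q * 3 ^ i := by
    rw [hl, pow_add, pow_mul]
    norm_num
  have h3 : 81 ^ q % 16 = 1 := by
    rw [Nat.pow_mod]
    norm_num
  have h4 : 81 ^ q % 5 = 1 := by
    rw [Nat.pow_mod]
    norm_num
  have h5 : i = 0 := by
    rw [h2, Nat.mul_mod, h3] at h1
    interval_cases i
    · rfl
    · norm_num at h1
    · norm_num at h1
    · norm_num at h1
  rw [h5, pow_zero, mul_one] at h2
  have h6 : 5 ∣ 2 ^ m := by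
    have h8 : 2 ^ m + 1 = 81 ^ q := by rw [← h, h2]
    generalize 2 ^ m = z at *
    generalize 81 ^ q = w at *
    omega
  have h7 := Nat.Prime.dvd_of_dvd_pow (by norm_num : Nat.Prime 5) h6
  norm_num at h7

theorem pow_case2 {m l : ℕ} (h : 2 ^ m = 3 ^ l + 1) : m ≤ 2 := by
  by_contra hm
  obtain ⟨c, hc⟩ : ∃ c, m = c + 3 := ⟨m - 3, by omega⟩
  obtain ⟨q, i, hi, hl⟩ : ∃ q i, i < 2 ∧ l = 2 * q + i := ⟨l / 2, l % 2, Nat.mod_lt _ (by norm_num),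
    (Nat.div_add_mod l 2).symm⟩
  have h1 : (3 ^ l + 1) % 8 = 0 := by
    rw [← h, hc, pow_add]
    omega
  have h2 : 3 ^ l = 9 ^ q * 3 ^ i := by
    rw [hl, pow_add, pow_mul]
    norm_num
  have h3 : 9 ^ q % 8 = 1 := by
    rw [Nat.pow_mod]
    norm_num
  interval_cases i
  · rw [h2, pow_zero, mul_one] at h1
    omega
  · rw [h2, pow_one] at h1
    omega

theorem lte3 {m i : ℕ} (h : (3 : ℤ) ^ (i + 1) ∣ (-2) ^ m - 1) : 3 ^ i ∣ m := by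
  have h1 := Int.emultiplicity_pow_sub_pow (p := 3) (by norm_num) (by decide) (x := -2) (y := 1)
    (by norm_num) (by norm_num) m
  rw [one_pow] at h1
  have h2 : emultiplicity ((3 : ℕ) : ℤ) (-2 - 1) = ((1 : ℕ) : ℕ∞) := by
    rw [emultiplicity_eq_coe]
    norm_num
  rw [h2] at h1
  have h3 : ((i + 1 : ℕ) : ℕ∞) ≤ emultiplicity ((3 : ℕ) : ℤ) ((-2) ^ m - 1) :=
    le_emultiplicity_of_pow_dvd (by exact_mod_cast h)
  rw [h1, Nat.cast_add, Nat.cast_one, add_comm] at h3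
  have h4 : (i : ℕ∞) ≤ emultiplicity 3 m := by
    exact (ENat.add_le_add_iff_left (by simp)).1 h3
  exact pow_dvd_of_le_emultiplicity h4

theorem lte2 {l i : ℕ} (h : (2 : ℤ) ^ (i + 2) ∣ (-3) ^ l - 1) : 2 ^ i ∣ l := by
  have h1 := Int.two_pow_sub_pow' (x := -3) (y := 1) l (by norm_num) (by norm_num)
  rw [one_pow] at h1
  have h2 : emultiplicity (2 : ℤ) (-3 - 1) = ((2 : ℕ) : ℕ∞) := by
    rw [emultiplicity_eq_coe]
    norm_num
  rw [h2] at h1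
  have h3 : ((i + 2 : ℕ) : ℕ∞) ≤ emultiplicity (2 : ℤ) ((-3) ^ l - 1) :=
    le_emultiplicity_of_pow_dvd h
  rw [h1, Nat.cast_add, add_comm] at h3
  have h4 : (i : ℕ∞) ≤ emultiplicity (2 : ℤ) (l : ℤ) := by
    exact (ENat.add_le_add_iff_left (by simp)).1 h3
  have h5 := pow_dvd_of_le_emultiplicity h4
  exact_mod_cast h5

theorem growth2 (m : ℕ) : (3 * m + 1) ^ 2 ≤ 16 * 2 ^ m := by
  rcases Nat.lt_or_ge m 3 with h | h
  · interval_cases m <;> norm_num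
  · induction m, h using Nat.le_induction with
    | base => norm_num
    | succ m hm ih =>
      rw [pow_succ 2 m]
      nlinarith

theorem growth3 (l : ℕ) : (4 * l + 1) ^ 2 ≤ 16 * 3 ^ l := by
  rcases Nat.lt_or_ge l 2 with h | h
  · interval_cases l <;> norm_num
  · induction l, h using Nat.le_induction with
    | base => norm_num
    | succ m hm ih =>
      rw [pow_succ 3 m]
      nlinarith

/-- `2^m ≤ 3 m n + 1` implies `2^m ≤ 16 n^2` -/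
theorem bound2 {m n : ℕ} (hn : 1 ≤ n) (h : 2 ^ m ≤ 3 * m * n + 1) : 2 ^ m ≤ 16 * n ^ 2 := by
  have h1 : 2 ^ m ≤ (3 * m + 1) * n := by nlinarith
  have h2 : 2 ^ m * 2 ^ m ≤ ((3 * m + 1) * n) * ((3 * m + 1) * n) := Nat.mul_le_mul h1 h1
  have h3 := growth2 m
  have h4 : 2 ^ m * 2 ^ m ≤ 2 ^ m * (16 * n ^ 2) := by
    calc 2 ^ m * 2 ^ m ≤ ((3 * m + 1) * n) * ((3 * m + 1) * n) := h2
      _ = (3 * m + 1) ^ 2 * n ^ 2 := by ring
      _ ≤ (16 * 2 ^ m) * n ^ 2 := Nat.mul_le_mul_right _ h3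
      _ = 2 ^ m * (16 * n ^ 2) := by ring
  exact Nat.le_of_mul_le_mul_left h4 (by positivity)

theorem bound3 {l n : ℕ} (hn : 1 ≤ n) (h : 3 ^ l ≤ 4 * l * n + 1) : 3 ^ l ≤ 16 * n ^ 2 := by
  have h1 : 3 ^ l ≤ (4 * l + 1) * n := by nlinarith
  have h2 : 3 ^ l * 3 ^ l ≤ ((4 * l + 1) * n) * ((4 * l + 1) * n) := Nat.mul_le_mul h1 h1
  have h3 := growth3 l
  have h4 : 3 ^ l * 3 ^ l ≤ 3 ^ l * (16 * n ^ 2) := by
    calc 3 ^ l * 3 ^ l ≤ ((4 * l + 1) * n) * ((4 * l + 1) * n) := h2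
      _ = (4 * l + 1) ^ 2 * n ^ 2 := by ring
      _ ≤ (16 * 3 ^ l) * n ^ 2 := Nat.mul_le_mul_right _ h3
      _ = 3 ^ l * (16 * n ^ 2) := by ring
  exact Nat.le_of_mul_le_mul_left h4 (by positivity)

/-- the case without a large prime dividing `σ̃(2^a)` -/
theorem smooth2 {a s n : ℕ} {b : ℕ} (hn : 1 ≤ n)
    (hv : (((2 : ℕ) : ℤ) + 1) * (s : ℤ) = ((2 : ℕ) : ℤ) ^ (a + 1) + (-1) ^ a)
    (hs : s ∣ 3 ^ b * n) : 2 ^ (a + 1) ≤ 16 * n ^ 2 := by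
  obtain ⟨u, v, hu, hvn, huv⟩ := (Nat.dvd_mul).1 hs
  obtain ⟨i, -, rfl⟩ := (Nat.dvd_prime_pow (by norm_num)).1 hu
  refine bound2 hn ?_
  have h1 : (-1 : ℤ) ^ (a + 1) * ((2 : ℤ) ^ (a + 1) + (-1) ^ a) = (-2) ^ (a + 1) - 1 := by
    have h2 : (-1 : ℤ) ^ (a + 1) * (-1) ^ a = -1 := by
      rw [← pow_add]
      exact Odd.neg_one_pow ⟨a, by ring⟩
    have h3 : (-2 : ℤ) ^ (a + 1) = (-1) ^ (a + 1) * 2 ^ (a + 1) := by
      rw [← mul_pow]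
      norm_num
    rw [mul_add, h2, h3]
    ring
  have h4 : (3 : ℤ) ^ (i + 1) ∣ (-2) ^ (a + 1) - 1 := by
    rw [← h1]
    refine Dvd.dvd.mul_left ?_ _
    refine ⟨v, ?_⟩
    have h5 : (2 : ℤ) ^ (a + 1) + (-1) ^ a = 3 * (s : ℤ) := by
      have := hv
      push_cast at this
      linarith
    rw [h5, ← huv]
    push_cast
    ring
  have h6 : 3 ^ i ≤ a + 1 := Nat.le_of_dvd (Nat.succ_pos a) (lte3 h4)
  have h7 : v ≤ n := Nat.le_of_dvd hn hvn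
  have h8 : (2 : ℤ) ^ (a + 1) ≤ 3 * s + 1 := by
    have := hv
    push_cast at this
    rcases neg_one_pow_eq_or ℤ a with h | h <;> rw [h] at this <;> linarith
  have h9 : 2 ^ (a + 1) ≤ 3 * s + 1 := by exact_mod_cast h8
  have h10 : s ≤ (a + 1) * n := by
    rw [← huv]
    exact Nat.mul_le_mul h6 h7
  nlinarith

/-- the case without a large prime dividing `σ̃(3^a)` -/
theorem smooth3 {a s n : ℕ} {b : ℕ} (hn : 1 ≤ n)
    (hv : (((3 : ℕ) : ℤ) + 1) * (s : ℤ) = ((3 : ℕ) : ℤ) ^ (a + 1) + (-1) ^ a)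
    (hs : s ∣ 2 ^ b * n) : 3 ^ (a + 1) ≤ 16 * n ^ 2 := by
  obtain ⟨u, v, hu, hvn, huv⟩ := (Nat.dvd_mul).1 hs
  obtain ⟨i, -, rfl⟩ := (Nat.dvd_prime_pow (by norm_num)).1 hu
  refine bound3 hn ?_
  have h1 : (-1 : ℤ) ^ (a + 1) * ((3 : ℤ) ^ (a + 1) + (-1) ^ a) = (-3) ^ (a + 1) - 1 := by
    have h2 : (-1 : ℤ) ^ (a + 1) * (-1) ^ a = -1 := by
      rw [← pow_add]
      exact Odd.neg_one_pow ⟨a, by ring⟩
    have h3 : (-3 : ℤ) ^ (a + 1) = (-1) ^ (a + 1) * 3 ^ (a + 1) := by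
      rw [← mul_pow]
      norm_num
    rw [mul_add, h2, h3]
    ring
  have h4 : (2 : ℤ) ^ (i + 2) ∣ (-3) ^ (a + 1) - 1 := by
    rw [← h1]
    refine Dvd.dvd.mul_left ?_ _
    refine ⟨v, ?_⟩
    have h5 : (3 : ℤ) ^ (a + 1) + (-1) ^ a = 4 * (s : ℤ) := by
      have := hv
      push_cast at this
      linarith
    rw [h5, ← huv]
    push_cast
    ring
  have h6 : 2 ^ i ≤ a + 1 := Nat.le_of_dvd (Nat.succ_pos a) (lte2 h4)
  have h7 : v ≤ n := Nat.le_of_dvd hn hvn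
  have h8 : (3 : ℤ) ^ (a + 1) ≤ 4 * s + 1 := by
    have := hv
    push_cast at this
    rcases neg_one_pow_eq_or ℤ a with h | h <;> rw [h] at this <;> linarith
  have h9 : 3 ^ (a + 1) ≤ 4 * s + 1 := by exact_mod_cast h8
  have h10 : s ≤ (a + 1) * n := by
    rw [← huv]
    exact Nat.mul_le_mul h6 h7
  nlinarith

end Pool.Agent.Helper73.AltS
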