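import Pool.Agent.Helper73.AltS.Step
import Pool.Agent.Helper73.AltS.Small

/-!
# The exceptional step

If numerator and denominator are equal, then `E = {2, 3}`, and one of the two powers is small.
-/

namespace Pool.Agent.Helper73.AltS

open Finset

variable {P E F G : Finset ℕ} {a s : ℕ → ℕ} {k : ℕ}

theorem exc_nonempty (h : Dat P a s k) (hP : Part P E F G) (hne : (E ∪ G).Nonempty)
    (heq : NN k s E F = DD a E F) : E.Nonempty := by
  by_contra hE
  rw [not_nonempty_iff_eq_empty] at hE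
  subst hE
  rw [empty_union] at hne
  have h1 := quot h hP
  rw [heq, div_self (by exact_mod_cast (DD_pos h hP).ne')] at h1
  unfold RR at h1
  rw [prod_empty, one_mul] at h1
  have h2 : ∏ p ∈ G, (1 : ℚ) < ∏ p ∈ G, (p : ℚ) ^ a p / s p :=
    prod_lt_prod_of_nonempty (fun _ _ => one_pos) (fun p hp =>
      f_gt (h.prime p (hP.memG hp)).two_le (h.one_le p (hP.memG hp)) (h.val p (hP.memG hp))) hne
  rw [prod_const_one, ← h1] at h2
  exact lt_irrefl _ h2

theorem exc_E (h : Dat P a s k) (hP : Part P E F G) (hne : (E ∪ G).Nonempty)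
    (heq : NN k s E F = DD a E F) : E = {2, 3} := by
  have hE := exc_nonempty h hP hne heq
  obtain ⟨q, hq⟩ : ∃ q, q = E.max' hE := ⟨_, rfl⟩
  have hqE : q ∈ E := by rw [hq]; exact max'_mem _ _
  have hmax : ∀ p ∈ E, p ≤ q := fun p hp => by rw [hq]; exact le_max' _ _ hp
  have hqp : q.Prime := h.prime q (hP.memE hqE)
  have h1 : q ∣ DD a E F := by
    rw [← heq]
    exact Dvd.dvd.mul_left (dvd_prod_of_mem (fun p => p) hqE) _
  unfold DD at h1
  have h2 : ∃ p ∈ E, q ∣ p + 1 := by
    rcases (Nat.Prime.dvd_mul hqp).1 h1 with h2 | h2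
    · obtain ⟨p, hp, hpd⟩ := (Prime.dvd_finsetProd_iff hqp.prime _).1 h2
      have h3 : q = p := (Nat.prime_dvd_prime_iff_eq hqp (h.prime p (hP.memF hp))).1
        (hqp.dvd_of_dvd_pow hpd)
      rw [← h3] at hp
      exact absurd hp (disjoint_left.1 hP.ef hqE)
    · exact (Prime.dvd_finsetProd_iff hqp.prime _).1 h2
  obtain ⟨p, hpE, hpd⟩ := h2
  have hpp : p.Prime := h.prime p (hP.memE hpE)
  have hle : q ≤ p + 1 := Nat.le_of_dvd (Nat.succ_pos p) hpd
  have hpq := hmax p hpE
  have hne' : p ≠ q := by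
    rintro rfl
    have h3 : p ∣ 1 := (Nat.dvd_add_right (dvd_refl p)).1 hpd
    exact hpp.one_lt.ne' (Nat.dvd_one.1 h3)
  have hqeq : q = p + 1 := by omega
  have hp2 : p = 2 := by
    rcases hpp.eq_two_or_odd with h3 | h3
    · exact h3
    · rcases hqp.eq_two_or_odd with h4 | h4
      · have := hpp.two_le
        omega
      · omega
  have hq3 : q = 3 := by omega
  ext x
  rw [mem_insert, mem_singleton]
  constructor
  · intro hx
    have h3 := hmax x hx
    have h4 := (h.prime x (hP.memE hx)).two_le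
    omega
  · rintro (rfl | rfl)
    · rw [← hp2]
      exact hpE
    · rw [← hq3]
      exact hqE

theorem exc_eq (h : Dat P a s k) (hP : Part P E F G) (hne : (E ∪ G).Nonempty)
    (heq : NN k s E F = DD a E F) : k * ∏ p ∈ F, s p = 2 * ∏ p ∈ F, p ^ a p := by
  have hE := exc_E h hP hne heq
  subst hE
  unfold NN DD at heq
  have h1 : ∏ p ∈ ({2, 3} : Finset ℕ), p = 6 := by decide
  have h2 : ∏ p ∈ ({2, 3} : Finset ℕ), (p + 1) = 12 := by decide
  rw [h1, h2] at heq
  omega

/-- `s p` divides the part of `n` without the primes which do not divide it -/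
theorem dvd_part (h : Dat P a s k) (hP : Part P E F G) (hE : E = {2, 3}) {p q : ℕ}
    (hpq : (p = 2 ∧ q = 3) ∨ (p = 3 ∧ q = 2)) (hG : ∀ x ∈ G, ¬ x ∣ s p) :
    s p ∣ q ^ a q * ∏ x ∈ F, x ^ a x := by
  have hpE : p ∈ E := by
    rw [hE, mem_insert, mem_singleton]
    rcases hpq with ⟨h1, h2⟩ | ⟨h1, h2⟩ <;> omega
  have hpP := hP.memE hpE
  have hpp := h.prime p hpP
  have h1 : s p ∣ ∏ x ∈ P, x ^ a x := by
    rw [← h.eq]
    exact Dvd.dvd.mul_left (dvd_prod_of_mem s hpP) _
  rw [hP.prod] at h1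
  have h2 : ∏ x ∈ E, x ^ a x = p ^ a p * q ^ a q := by
    rw [hE]
    rcases hpq with ⟨h1, h2⟩ | ⟨h1, h2⟩
    · rw [h1, h2, prod_pair (by norm_num)]
    · rw [h1, h2, prod_pair (by norm_num), mul_comm]
  have hcopG : Nat.Coprime (s p) (∏ x ∈ G, x ^ a x) := by
    refine Nat.Coprime.prod_right fun x hx => Nat.Coprime.pow_right _ ?_
    exact ((Nat.Prime.coprime_iff_not_dvd (h.prime x (hP.memG hx))).2 (hG x hx)).symm
  have hcopP : Nat.Coprime (s p) (p ^ a p) := by
    refine Nat.Coprime.pow_right _ ?_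
    refine ((Nat.Prime.coprime_iff_not_dvd hpp).2 fun hd => ?_).symm
    have h3 : (p : ℤ) ∣ (-1) ^ a p := by
      have h4 := h.val p hpP
      have h5 : (-1 : ℤ) ^ a p = ((p : ℤ) + 1) * (s p : ℤ) - (p : ℤ) ^ (a p + 1) := by
        rw [h4]
        ring
      rw [h5]
      refine dvd_sub (Dvd.dvd.mul_left (Int.natCast_dvd_natCast.2 hd) _) ?_
      exact dvd_pow_self _ (Nat.succ_ne_zero _)
    have h4 : (p : ℤ) ∣ 1 := by
      rcases neg_one_pow_eq_or ℤ (a p) with h5 | h5 <;> rw [h5] at h3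
      · exact h3
      · exact (dvd_neg.1 h3)
    have h5 : p ∣ 1 := by exact_mod_cast h4
    exact hpp.one_lt.ne' (Nat.dvd_one.1 h5)
  have h3 := hcopG.dvd_of_dvd_mul_right h1
  rw [h2, mul_assoc] at h3
  exact hcopP.dvd_of_dvd_mul_left h3

/-- the exceptional step -/
theorem exc_bound (h : Dat P a s k) (hP : Part P E F G) (hne : (E ∪ G).Nonempty)
    (heq : NN k s E F = DD a E F) :
    2 ^ (a 2 + 1) + 1 ≤ DD a E F ^ 2 ∨ 3 ^ (a 3 + 1) + 1 ≤ DD a E F ^ 2 := by
  have hE := exc_E h hP hne heq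
  have hn : 1 ≤ ∏ p ∈ F, p ^ a p :=
    Nat.succ_le_of_lt (prod_pos fun p hp => Nat.pow_pos (h.prime p (hP.memF hp)).pos)
  obtain ⟨n, hnd⟩ : ∃ n, n = ∏ p ∈ F, p ^ a p := ⟨_, rfl⟩
  have hD : DD a E F = 12 * n := by
    unfold DD
    have h2 : ∏ p ∈ ({2, 3} : Finset ℕ), (p + 1) = 12 := by decide
    rw [hE, h2, ← hnd, mul_comm]
  rw [← hnd] at hn
  have h2E : 2 ∈ E := by rw [hE]; simp
  have h3E : 3 ∈ E := by rw [hE]; simp
  have hv2 := h.val 2 (hP.memE h2E)
  have hv3 := h.val 3 (hP.memE h3E)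
  have ha2 := h.one_le 2 (hP.memE h2E)
  have ha3 := h.one_le 3 (hP.memE h3E)
  -- the identity
  have hR : RR a s E G = 1 := by
    rw [← quot h hP, heq, div_self (by exact_mod_cast (DD_pos h hP).ne')]
  have hR2 : ((2 : ℕ) : ℚ) ^ (a 2 + 1) / (((2 : ℕ) : ℚ) ^ (a 2 + 1) + (-1) ^ a 2) *
      (((3 : ℕ) : ℚ) ^ (a 3 + 1) / (((3 : ℕ) : ℚ) ^ (a 3 + 1) + (-1) ^ a 3)) *
        ∏ p ∈ G, (p : ℚ) ^ a p / s p = 1 := by
    refine Eq.trans ?_ hR
    unfold RR
    rw [hE, prod_pair (by norm_num), e_eq (by norm_num) hv2, e_eq (by norm_num) hv3]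
  have hA4 : 4 ≤ 2 ^ (a 2 + 1) := by
    have : 2 ^ (1 + 1) ≤ 2 ^ (a 2 + 1) := Nat.pow_le_pow_right (by norm_num) (by omega)
    exact this
  have hB9 : 9 ≤ 3 ^ (a 3 + 1) := by
    have : 3 ^ (1 + 1) ≤ 3 ^ (a 3 + 1) := Nat.pow_le_pow_right (by norm_num) (by omega)
    exact this
  obtain ⟨A, hA⟩ : ∃ A : ℕ, A = 2 ^ (a 2 + 1) := ⟨_, rfl⟩
  obtain ⟨B, hB⟩ : ∃ B : ℕ, B = 3 ^ (a 3 + 1) := ⟨_, rfl⟩
  have hAq : ((2 : ℕ) : ℚ) ^ (a 2 + 1) = A := by rw [hA]; push_cast; rfl
  have hBq : ((3 : ℕ) : ℚ) ^ (a 3 + 1) = B := by rw [hB]; push_cast; rfl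
  rw [hAq, hBq] at hR2
  have hA4' : (4 : ℚ) ≤ A := by rw [hA]; exact_mod_cast hA4
  have hB9' : (9 : ℚ) ≤ B := by rw [hB]; exact_mod_cast hB9
  rcases G.eq_empty_or_nonempty with hG | hG
  · -- no large primes
    left
    rw [hG, prod_empty, mul_one] at hR2
    have h8 : 2 ^ (a 2 + 1) ≤ 8 := by
      have h9 : a 2 + 1 ≤ 3 := by
        rcases neg_one_pow_eq_or ℚ (a 2) with h2 | h2 <;>
          rcases neg_one_pow_eq_or ℚ (a 3) with h3 | h3 <;> rw [h2, h3] at hR2
        · exfalso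
          rw [div_mul_div_comm, div_eq_one_iff_eq (by positivity)] at hR2
          linarith
        · rw [div_mul_div_comm, div_eq_one_iff_eq (by
            refine mul_ne_zero (by linarith) (by linarith))] at hR2
          have h5 : (B : ℚ) = A + 1 := by linarith
          have h6 : B = A + 1 := by exact_mod_cast h5
          rw [hA, hB] at h6
          exact pow_case1 h6
        · rw [div_mul_div_comm, div_eq_one_iff_eq (by
            refine mul_ne_zero (by linarith) (by linarith))] at hR2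
          have h5 : (A : ℚ) = B + 1 := by linarith
          have h6 : A = B + 1 := by exact_mod_cast h5
          rw [hA, hB] at h6
          exact (pow_case2 h6).trans (by norm_num)
        · exfalso
          rw [div_mul_div_comm, div_eq_one_iff_eq (by
            refine mul_ne_zero (by linarith) (by linarith))] at hR2
          linarith
      calc 2 ^ (a 2 + 1) ≤ 2 ^ 3 := Nat.pow_le_pow_right (by norm_num) h9
        _ = 8 := by norm_num
    rw [hD]
    nlinarith
  · by_cases h2G : ∀ x ∈ G, ¬ x ∣ s 2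
    · left
      have h3 := dvd_part h hP hE (Or.inl ⟨rfl, rfl⟩) h2G
      rw [← hnd] at h3
      have h4 := smooth2 hn hv2 h3
      rw [hD]
      nlinarith
    · by_cases h3G : ∀ x ∈ G, ¬ x ∣ s 3
      · right
        have h3 := dvd_part h hP hE (Or.inr ⟨rfl, rfl⟩) h3G
        rw [← hnd] at h3
        have h4 := smooth3 hn hv3 h3
        rw [hD]
        nlinarith
      · exfalso
        push Not at h2G h3G
        obtain ⟨x, hxG, hx⟩ := h2G
        obtain ⟨z, hzG, hz⟩ := h3G
        obtain ⟨p, hp⟩ : ∃ p, p = G.min' hG := ⟨_, rfl⟩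
        have hpG : p ∈ G := by rw [hp]; exact min'_mem _ _
        have hmin : ∀ x ∈ G, p ≤ x := fun x hx => by rw [hp]; exact min'_le _ _ hx
        have hpP := hP.memG hpG
        have hpp := h.prime p hpP
        have hs2 := s_pos (by norm_num) hv2
        have hs3 := s_pos (by norm_num) hv3
        have h4 : p ≤ s 2 := (hmin x hxG).trans (Nat.le_of_dvd hs2 hx)
        have h5 : p ≤ s 3 := (hmin z hzG).trans (Nat.le_of_dvd hs3 hz)
        have hp3 : 3 ≤ p := by
          have h6 : p ≠ 2 := by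
            rintro h6
            rw [h6] at hpG
            exact disjoint_left.1 hP.eg h2E hpG
          have := hpp.two_le
          omega
        have h6 : 3 * (p : ℚ) ≤ A + 1 := by
          have h7 : (3 : ℤ) * s 2 ≤ 2 ^ (a 2 + 1) + 1 := by
            have := hv2
            push_cast at this
            rcases neg_one_pow_eq_or ℤ (a 2) with h | h <;> rw [h] at this <;> linarith
          have h8 : 3 * s 2 ≤ A + 1 := by rw [hA]; exact_mod_cast h7
          have h9 : 3 * p ≤ A + 1 := by omega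
          exact_mod_cast h9
        have h7 : 4 * (p : ℚ) ≤ B + 1 := by
          have h7 : (4 : ℤ) * s 3 ≤ 3 ^ (a 3 + 1) + 1 := by
            have := hv3
            push_cast at this
            rcases neg_one_pow_eq_or ℤ (a 3) with h | h <;> rw [h] at this <;> linarith
          have h8 : 4 * s 3 ≤ B + 1 := by rw [hB]; exact_mod_cast h7
          have h9 : 4 * p ≤ B + 1 := by omega
          exact_mod_cast h9
        have hp3' : (3 : ℚ) ≤ p := by exact_mod_cast hp3
        -- lower bounds of the three factors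
        have g1 : (3 * (p : ℚ) - 1) / (3 * p) ≤ (A : ℚ) / (A + (-1) ^ a 2) := by
          rcases neg_one_pow_eq_or ℚ (a 2) with h | h <;> rw [h]
          · rw [div_le_div_iff₀ (by linarith) (by linarith)]
            nlinarith
          · rw [div_le_div_iff₀ (by linarith) (by linarith)]
            nlinarith
        have g2 : (4 * (p : ℚ) - 1) / (4 * p) ≤ (B : ℚ) / (B + (-1) ^ a 3) := by
          rcases neg_one_pow_eq_or ℚ (a 3) with h | h <;> rw [h]
          · rw [div_le_div_iff₀ (by linarith) (by linarith)]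
            nlinarith
          · rw [div_le_div_iff₀ (by linarith) (by linarith)]
            nlinarith
        have g3 : (p : ℚ) ^ 2 / ((p : ℚ) ^ 2 - p + 1) ≤ ∏ x ∈ G, (x : ℚ) ^ a x / s x := by
          rw [← mul_prod_erase G _ hpG]
          have g4 : (1 : ℚ) ≤ ∏ x ∈ G.erase p, (x : ℚ) ^ a x / s x := by
            have g5 : ∏ x ∈ G.erase p, (1 : ℚ) ≤ ∏ x ∈ G.erase p, (x : ℚ) ^ a x / s x :=
              prod_le_prod (fun _ _ => zero_le_one) fun x hx => by
                have hxP := hP.memG (mem_of_mem_erase hx)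
                exact (f_gt (h.prime x hxP).two_le (h.one_le x hxP) (h.val x hxP)).le
            rwa [prod_const_one] at g5
          have g6 := f_ge hpp.two_le (h.one_le p hpP) (h.val p hpP)
          have g7 : (0 : ℚ) ≤ (p : ℚ) ^ a p / s p := by positivity
          calc (p : ℚ) ^ 2 / ((p : ℚ) ^ 2 - p + 1) ≤ (p : ℚ) ^ a p / s p * 1 := by
                rw [mul_one]; exact g6
            _ ≤ _ := mul_le_mul_of_nonneg_left g4 g7
        have hden : (0 : ℚ) < (p : ℚ) ^ 2 - p + 1 := by nlinarith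
        have g8 : (3 * (p : ℚ) - 1) / (3 * p) * ((4 * (p : ℚ) - 1) / (4 * p)) *
            ((p : ℚ) ^ 2 / ((p : ℚ) ^ 2 - p + 1)) ≤ 1 := by
          refine le_trans ?_ hR2.le
          have q1 : (0 : ℚ) ≤ (3 * (p : ℚ) - 1) / (3 * p) := div_nonneg (by linarith) (by linarith)
          have q2 : (0 : ℚ) ≤ (4 * (p : ℚ) - 1) / (4 * p) := div_nonneg (by linarith) (by linarith)
          have q3 : (0 : ℚ) ≤ (p : ℚ) ^ 2 / ((p : ℚ) ^ 2 - p + 1) :=
            div_nonneg (by positivity) hden.le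
          exact mul_le_mul (mul_le_mul g1 g2 q2 (q1.trans g1)) g3 q3
            (mul_nonneg (q1.trans g1) (q2.trans g2))
        rw [div_mul_div_comm, div_mul_div_comm, div_le_one (by positivity)] at g8
        have hpp2 : (0 : ℚ) < (p : ℚ) ^ 2 := by positivity
        have g9 : (3 * (p : ℚ) - 1) * (4 * p - 1) ≤ 12 * ((p : ℚ) ^ 2 - p + 1) := by
          have e1 : (3 * (p : ℚ) - 1) * (4 * p - 1) * (p : ℚ) ^ 2 ≤
              12 * ((p : ℚ) ^ 2 - p + 1) * (p : ℚ) ^ 2 := by
            refine g8.trans (le_of_eq ?_)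
            ring
          exact le_of_mul_le_mul_right e1 hpp2
        nlinarith

end Pool.Agent.Helper73.AltS
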