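import Pool.Agent.Helper73.AltS.Exc

/-!
# The bound for a given number of prime factors
-/

namespace Pool.Agent.Helper73.AltS

open Finset

variable {P E F G : Finset ℕ} {a s : ℕ → ℕ} {k : ℕ}

theorem next (h : Dat P a s k) (hP : Part P E F G) (hne : (E ∪ G).Nonempty) :
    ∃ y : ℕ, 2 ≤ y ∧ (∀ p ∈ G, y ≤ p) ∧ (∀ p ∈ E, y ≤ p ^ (a p + 1)) ∧
      ∃ E' F' G' : Finset ℕ, Part P E' F' G' ∧ F ⊆ F' ∧ 2 * #G' + #E' + 1 = 2 * #G + #E ∧
        DD a E' F' ≤ DD a E F * (y + 1) := by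
  have hSne : (G ∪ E.image fun p => p ^ (a p + 1)).Nonempty := by
    obtain ⟨x, hx⟩ := hne
    rcases mem_union.1 hx with hx | hx
    · exact ⟨x ^ (a x + 1), mem_union_right _ (mem_image_of_mem _ hx)⟩
    · exact ⟨x, mem_union_left _ hx⟩
  obtain ⟨y, hy⟩ : ∃ y, y = (G ∪ E.image fun p => p ^ (a p + 1)).min' hSne := ⟨_, rfl⟩
  have hyS : y ∈ G ∪ E.image fun p => p ^ (a p + 1) := by
    rw [hy]
    exact min'_mem _ _
  have hmin : ∀ x ∈ G ∪ E.image (fun p => p ^ (a p + 1)), y ≤ x := fun x hx => by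
    rw [hy]
    exact min'_le _ _ hx
  have hG : ∀ p ∈ G, y ≤ p := fun p hp => hmin p (mem_union_left _ hp)
  have hE : ∀ p ∈ E, y ≤ p ^ (a p + 1) := fun p hp =>
    hmin _ (mem_union_right _ (mem_image_of_mem _ hp))
  rcases mem_union.1 hyS with hyG | hyE
  · have hyp := h.prime y (hP.memG hyG)
    have hyE' : y ∉ E := fun hx => disjoint_left.1 hP.eg hx hyG
    have hyF' : y ∉ F := fun hx => disjoint_left.1 hP.fg hx hyG
    refine ⟨y, hyp.two_le, hG, hE, insert y E, F, G.erase y, ⟨?_, ?_, ?_, ?_⟩, Subset.rfl, ?_, ?_⟩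
    · rw [disjoint_insert_left]
      exact ⟨hyF', hP.ef⟩
    · rw [disjoint_insert_left]
      exact ⟨notMem_erase _ _, hP.eg.mono_right (erase_subset _ _)⟩
    · exact hP.fg.mono_right (erase_subset _ _)
    · rw [← hP.un]
      ext x
      simp only [mem_union, mem_insert, mem_erase]
      by_cases hx : x = y
      · subst hx
        simp [hyG]
      · simp [hx]
    · rw [card_erase_of_mem hyG, card_insert_of_notMem hyE']
      have := card_pos.2 ⟨y, hyG⟩
      omega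
    · unfold DD
      rw [prod_insert hyE']
      exact le_of_eq (by ring)
  · obtain ⟨p, hpE, hpy⟩ := mem_image.1 hyE
    have hpp := h.prime p (hP.memE hpE)
    have hpF : p ∉ F := fun hx => disjoint_left.1 hP.ef hpE hx
    have hpG : p ∉ G := fun hx => disjoint_left.1 hP.eg hpE hx
    have hy2 : 2 ≤ y := by
      rw [← hpy]
      exact hpp.two_le.trans (Nat.le_self_pow (Nat.succ_ne_zero _) p)
    refine ⟨y, hy2, hG, hE, E.erase p, insert p F, G, ⟨?_, ?_, ?_, ?_⟩, subset_insert _ _, ?_, ?_⟩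
    · rw [disjoint_insert_right]
      exact ⟨notMem_erase _ _, hP.ef.mono_left (erase_subset _ _)⟩
    · exact hP.eg.mono_left (erase_subset _ _)
    · rw [disjoint_insert_left]
      exact ⟨hpG, hP.fg⟩
    · rw [← hP.un]
      ext x
      simp only [mem_union, mem_insert, mem_erase]
      by_cases hx : x = p
      · subst hx
        simp [hpE]
      · simp [hx]
    · rw [card_erase_of_mem hpE]
      have := card_pos.2 ⟨p, hpE⟩
      omega
    · have h1 : DD a (E.erase p) (insert p F) * (p + 1) = DD a E F * p ^ a p := by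
        unfold DD
        rw [prod_insert hpF, ← mul_prod_erase E (fun p => p + 1) hpE]
        ring
      have h2 : p ^ a p ≤ y + 1 := by
        rw [← hpy, pow_succ]
        nlinarith [hpp.two_le, Nat.pow_pos (n := a p) hpp.pos]
      calc DD a (E.erase p) (insert p F) ≤ DD a (E.erase p) (insert p F) * (p + 1) :=
            Nat.le_mul_of_pos_right _ (Nat.succ_pos p)
        _ = DD a E F * p ^ a p := h1
        _ ≤ DD a E F * (y + 1) := Nat.mul_le_mul_left _ h2

/-- after the exceptional step -/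
def Flag (P F : Finset ℕ) (a s : ℕ → ℕ) (k m : ℕ) : Prop :=
  ∃ F₀ ⊆ F, k * ∏ p ∈ F₀, s p = 2 * ∏ p ∈ F₀, p ^ a p ∧ m + 2 * #F₀ + 2 < 2 * #P

theorem ne_of_flag (h : Dat P a s k) (hP : Part P E F G) (hne : (E ∪ G).Nonempty) {m : ℕ}
    (hm : 2 * #G + #E = m) (hf : Flag P F a s k m) : NN k s E F ≠ DD a E F := by
  intro heq
  obtain ⟨F₀, hF₀, h0, hlt⟩ := hf
  have hE := exc_E h hP hne heq
  have h1 := exc_eq h hP hne heq
  have hFP : ∀ p ∈ F \ F₀, p ∈ P := fun p hp => hP.memF (mem_sdiff.1 hp).1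
  have h2 : ∏ p ∈ F \ F₀, s p = ∏ p ∈ F \ F₀, p ^ a p := by
    have e1 : (∏ p ∈ F \ F₀, s p) * ∏ p ∈ F₀, s p = ∏ p ∈ F, s p := prod_sdiff hF₀
    have e2 : (∏ p ∈ F \ F₀, p ^ a p) * ∏ p ∈ F₀, p ^ a p = ∏ p ∈ F, p ^ a p := prod_sdiff hF₀
    rw [← e1, ← e2] at h1
    have e3 : 0 < 2 * ∏ p ∈ F₀, p ^ a p := Nat.mul_pos (by norm_num)
      (prod_pos fun p hp => Nat.pow_pos (h.prime p (hP.memF (hF₀ hp))).pos)
    refine Nat.eq_of_mul_eq_mul_right e3 ?_
    calc (∏ p ∈ F \ F₀, s p) * (2 * ∏ p ∈ F₀, p ^ a p)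
        = (∏ p ∈ F \ F₀, s p) * (k * ∏ p ∈ F₀, s p) := by rw [h0]
      _ = k * ((∏ p ∈ F \ F₀, s p) * ∏ p ∈ F₀, s p) := by ring
      _ = 2 * ((∏ p ∈ F \ F₀, p ^ a p) * ∏ p ∈ F₀, p ^ a p) := h1
      _ = _ := by ring
  have h3 : F \ F₀ = ∅ := by
    by_contra hne'
    have h4 : ∏ p ∈ F \ F₀, s p < ∏ p ∈ F \ F₀, p ^ a p :=
      prod_lt_prod_of_nonempty (fun p hp => s_pos (h.prime p (hFP p hp)).two_le
        (h.val p (hFP p hp))) (fun p hp => s_lt (h.prime p (hFP p hp)).two_le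
          (h.one_le p (hFP p hp)) (h.val p (hFP p hp))) (nonempty_iff_ne_empty.2 hne')
    exact h4.ne h2
  have h4 : F = F₀ := Subset.antisymm (sdiff_eq_empty_iff_subset.1 h3) hF₀
  have h5 := hP.card
  have h6 : #E = 2 := by rw [hE]; rfl
  rw [← h4] at hlt
  omega

theorem arith1 {r D D' y : ℕ} (hr : 1 ≤ r) (hD : 1 ≤ D) (hy : y ≤ 2 * r * D)
    (hD' : D' ≤ D * (y + 1)) : 3 * r * D' ≤ (3 * r * D) ^ 2 := by
  have h1 : y + 1 ≤ 3 * r * D := by nlinarith [Nat.mul_le_mul hr hD]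
  calc 3 * r * D' ≤ 3 * r * (D * (y + 1)) := Nat.mul_le_mul_left _ hD'
    _ ≤ 3 * r * (D * (3 * r * D)) := Nat.mul_le_mul_left _ (Nat.mul_le_mul_left _ h1)
    _ = (3 * r * D) ^ 2 := by ring

theorem arith2 {r D D' y : ℕ} (hr : 1 ≤ r) (hy : y + 1 ≤ D ^ 2)
    (hD' : D' ≤ D * (y + 1)) : 3 * r * D' ≤ (3 * r * D) ^ 3 := by
  have h1 : 1 ≤ (3 * r) ^ 2 := Nat.one_le_pow _ _ (by omega)
  calc 3 * r * D' ≤ 3 * r * (D * (y + 1)) := Nat.mul_le_mul_left _ hD'
    _ ≤ 3 * r * (D * D ^ 2) := Nat.mul_le_mul_left _ (Nat.mul_le_mul_left _ hy)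
    _ = 1 * (3 * r * D ^ 3) := by ring
    _ ≤ (3 * r) ^ 2 * (3 * r * D ^ 3) := Nat.mul_le_mul_right _ h1
    _ = (3 * r * D) ^ 3 := by ring

theorem nonempty_of {m : ℕ} (hm : 2 * #G + #E = m + 1) : (E ∪ G).Nonempty := by
  by_contra hcon
  rw [not_nonempty_iff_eq_empty, union_eq_empty] at hcon
  rw [hcon.1, hcon.2] at hm
  simp at hm

theorem DD_final (hP : Part P E F G) (hm : 2 * #G + #E = 0) :
    DD a E F = ∏ p ∈ P, p ^ a p := by
  have hG : G = ∅ := card_eq_zero.1 (by omega)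
  have hE : E = ∅ := card_eq_zero.1 (by omega)
  subst hG
  subst hE
  have h1 : F = P := by
    rw [← hP.un]
    simp
  unfold DD
  rw [h1, prod_empty, mul_one]

theorem indA (h : Dat P a s k) (hr : 1 ≤ #P) : ∀ (m : ℕ) (E F G : Finset ℕ), Part P E F G →
    2 * #G + #E = m → Flag P F a s k m →
      3 * #P * ∏ p ∈ P, p ^ a p ≤ (3 * #P * DD a E F) ^ 2 ^ m := by
  intro m
  induction m with
  | zero =>
    intro E F G hP hm _
    rw [DD_final hP hm, pow_zero, pow_one]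
  | succ m ih =>
    intro E F G hP hm hf
    have hne := nonempty_of hm
    obtain ⟨y, hy, hG, hE, E', F', G', hP', hFF', hcard, hDD⟩ := next h hP hne
    have hstep := step h hP hy hG hE (ne_of_flag h hP hne hm hf)
    have h1 := arith1 hr (DD_pos h hP) hstep hDD
    have h2 := ih E' F' G' hP' (by omega) (by
      obtain ⟨F₀, h3, h4, h5⟩ := hf
      exact ⟨F₀, h3.trans hFF', h4, by omega⟩)
    calc 3 * #P * ∏ p ∈ P, p ^ a p ≤ (3 * #P * DD a E' F') ^ 2 ^ m := h2
      _ ≤ ((3 * #P * DD a E F) ^ 2) ^ 2 ^ m := Nat.pow_le_pow_left h1 _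
      _ = (3 * #P * DD a E F) ^ 2 ^ (m + 1) := by
          rw [← pow_mul]
          congr 1
          ring

theorem indB (h : Dat P a s k) (hr : 1 ≤ #P) : ∀ (m : ℕ) (E F G : Finset ℕ), Part P E F G →
    2 * #G + #E = m →
      (3 * #P * ∏ p ∈ P, p ^ a p) ^ 2 ≤ (3 * #P * DD a E F) ^ (3 * 2 ^ m) := by
  intro m
  induction m with
  | zero =>
    intro E F G hP hm
    have h1 := DD_pos h hP
    rw [← DD_final hP hm, pow_zero, mul_one]
    exact Nat.pow_le_pow_right (by positivity) (by norm_num)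
  | succ m ih =>
    intro E F G hP hm
    have hne := nonempty_of hm
    obtain ⟨y, hy, hG, hE, E', F', G', hP', hFF', hcard, hDD⟩ := next h hP hne
    by_cases heq : NN k s E F = DD a E F
    · have hE2 := exc_E h hP hne heq
      have h2E : 2 ∈ E := by rw [hE2]; simp
      have h3E : 3 ∈ E := by rw [hE2]; simp
      have hy2 : y + 1 ≤ DD a E F ^ 2 := by
        rcases exc_bound h hP hne heq with h1 | h1
        · have := hE 2 h2E
          omega
        · have := hE 3 h3E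
          omega
      have h1 := arith2 hr hy2 hDD
      have h2 := indA h hr m E' F' G' hP' (by omega) (by
        refine ⟨F, hFF', exc_eq h hP hne heq, ?_⟩
        have h5 := hP.card
        have h6 : #E = 2 := by rw [hE2]; rfl
        omega)
      calc (3 * #P * ∏ p ∈ P, p ^ a p) ^ 2 ≤ ((3 * #P * DD a E' F') ^ 2 ^ m) ^ 2 :=
            Nat.pow_le_pow_left h2 _
        _ ≤ (((3 * #P * DD a E F) ^ 3) ^ 2 ^ m) ^ 2 :=
            Nat.pow_le_pow_left (Nat.pow_le_pow_left h1 _) _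
        _ = (3 * #P * DD a E F) ^ (3 * 2 ^ (m + 1)) := by
            rw [← pow_mul, ← pow_mul]
            congr 1
    · have hstep := step h hP hy hG hE heq
      have h1 := arith1 hr (DD_pos h hP) hstep hDD
      have h2 := ih E' F' G' hP' (by omega)
      calc (3 * #P * ∏ p ∈ P, p ^ a p) ^ 2 ≤ (3 * #P * DD a E' F') ^ (3 * 2 ^ m) := h2
        _ ≤ ((3 * #P * DD a E F) ^ 2) ^ (3 * 2 ^ m) := Nat.pow_le_pow_left h1 _
        _ = (3 * #P * DD a E F) ^ (3 * 2 ^ (m + 1)) := by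
            rw [← pow_mul]
            congr 1
            ring

/-- the bound in terms of the number of prime factors -/
theorem bound {n : ℕ} (hn : IsPerf n) :
    n ^ 2 < (3 * #n.primeFactors) ^ (3 * 4 ^ #n.primeFactors) := by
  obtain ⟨k, _, h⟩ := dat_of_perf hn
  have hn0 : n ≠ 0 := by have := hn.1; omega
  have hr : 1 ≤ #n.primeFactors := by
    have h1 := Nat.nonempty_primeFactors.2 hn.1
    exact card_pos.2 h1
  have hP : Part n.primeFactors ∅ ∅ n.primeFactors :=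
    ⟨disjoint_empty_left _, disjoint_empty_left _, disjoint_empty_left _, by simp⟩
  have h1 := indB h hr (2 * #n.primeFactors) ∅ ∅ n.primeFactors hP (by simp)
  have h2 : ∏ p ∈ n.primeFactors, p ^ n.factorization p = n :=
    Nat.prod_factorization_pow_eq_self hn0
  have h3 : DD (fun p => n.factorization p) ∅ ∅ = 1 := by simp [DD]
  rw [h2, h3, mul_one, pow_mul 2 2] at h1
  have h4 : n ^ 2 < (3 * #n.primeFactors * n) ^ 2 := by
    refine Nat.pow_lt_pow_left ?_ (by norm_num)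
    have : 0 < n := Nat.pos_of_ne_zero hn0
    nlinarith
  exact lt_of_lt_of_le h4 h1

end Pool.Agent.Helper73.AltS
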