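import Pool.Agent.Helper73.AltS.Defs

/-!
# Estimates for one prime

`f = p^a / σ̃(p^a)` and `e = f p / (p + 1) = p^(a+1) / (p^(a+1) ± 1)`.
-/

namespace Pool.Agent.Helper73.AltS

section

variable {p a s : ℕ} (hp : 2 ≤ p) (ha : 1 ≤ a)
  (hv : ((p : ℤ) + 1) * (s : ℤ) = (p : ℤ) ^ (a + 1) + (-1) ^ a)

include hp hv in
theorem s_pos : 0 < s := by
  rcases Nat.eq_zero_or_pos s with h | h
  · exfalso
    rw [h, Nat.cast_zero, mul_zero] at hv
    have h1 : (2 : ℤ) ≤ (p : ℤ) ^ (a + 1) := by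
      have h2 : 2 ≤ p ^ (a + 1) := le_trans hp (Nat.le_self_pow (Nat.succ_ne_zero a) p)
      exact_mod_cast h2
    rcases neg_one_pow_eq_or ℤ a with h | h <;> rw [h] at hv <;> linarith
  · exact h

include hp ha hv in
/-- `s < p^a` -/
theorem s_lt : s < p ^ a := by
  have h1 : ((p : ℤ) + 1) * (s : ℤ) < ((p : ℤ) + 1) * (p : ℤ) ^ a := by
    rw [hv, pow_succ]
    have h2 : (2 : ℤ) ≤ (p : ℤ) ^ a := by
      have h2 : 2 ≤ p ^ a := le_trans hp (Nat.le_self_pow (by omega) p)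
      exact_mod_cast h2
    rcases neg_one_pow_eq_or ℤ a with h | h <;> rw [h] <;> nlinarith
  have h3 : (s : ℤ) < (p : ℤ) ^ a := lt_of_mul_lt_mul_left h1 (by positivity)
  exact_mod_cast h3

include hp ha hv in
/-- `p^a (p - 1) ≤ s p` -/
theorem s_ge : (p : ℤ) ^ a * ((p : ℤ) - 1) ≤ s * p := by
  have hp' : (2 : ℤ) ≤ p := by exact_mod_cast hp
  have h1 : ((p : ℤ) + 1) * ((p : ℤ) ^ a * ((p : ℤ) - 1)) ≤ ((p : ℤ) + 1) * (s * p) := by
    have h3 : ((p : ℤ) + 1) * (s * p) = ((p : ℤ) ^ (a + 1) + (-1) ^ a) * p := by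
      rw [← hv]
      ring
    rw [h3, pow_succ]
    have h2 : (p : ℤ) ≤ (p : ℤ) ^ a := by
      have h2 : p ≤ p ^ a := Nat.le_self_pow (by omega) p
      exact_mod_cast h2
    rcases neg_one_pow_eq_or ℤ a with h | h <;> rw [h] <;> nlinarith
  exact le_of_mul_le_mul_left h1 (by positivity)

include hp ha hv in
/-- `s p^2 ≤ p^a (p^2 - p + 1)` -/
theorem s_le : (s : ℤ) * (p : ℤ) ^ 2 ≤ (p : ℤ) ^ a * ((p : ℤ) ^ 2 - p + 1) := by
  have hp' : (2 : ℤ) ≤ p := by exact_mod_cast hp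
  have h1 : ((p : ℤ) + 1) * ((s : ℤ) * (p : ℤ) ^ 2) ≤
      ((p : ℤ) + 1) * ((p : ℤ) ^ a * ((p : ℤ) ^ 2 - p + 1)) := by
    have h3 : ((p : ℤ) + 1) * ((s : ℤ) * (p : ℤ) ^ 2) =
        ((p : ℤ) ^ (a + 1) + (-1) ^ a) * (p : ℤ) ^ 2 := by
      rw [← hv]
      ring
    have h4 : ((p : ℤ) + 1) * ((p : ℤ) ^ a * ((p : ℤ) ^ 2 - p + 1)) =
        (p : ℤ) ^ a * ((p : ℤ) ^ 3 + 1) := by ring
    rw [h3, h4, pow_succ]
    rcases Nat.even_or_odd a with h | h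
    · rw [h.neg_one_pow]
      have h5 : (p : ℤ) ^ 2 ≤ (p : ℤ) ^ a := by
        have h6 : 2 ≤ a := by
          obtain ⟨c, hc⟩ := h
          omega
        have h7 : p ^ 2 ≤ p ^ a := Nat.pow_le_pow_right (by omega) h6
        exact_mod_cast h7
      nlinarith
    · rw [h.neg_one_pow]
      have h5 : (0 : ℤ) ≤ (p : ℤ) ^ a := by positivity
      have h6 : (0 : ℤ) ≤ (p : ℤ) ^ 2 := by positivity
      nlinarith
  exact le_of_mul_le_mul_left h1 (by positivity)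

include hp ha hv in
theorem f_gt : (1 : ℚ) < (p : ℚ) ^ a / s := by
  have h0 : (0 : ℚ) < s := by exact_mod_cast s_pos hp hv
  rw [lt_div_iff₀ h0, one_mul]
  exact_mod_cast s_lt hp ha hv

include hp ha hv in
theorem f_le : (p : ℚ) ^ a / s ≤ (p : ℚ) / ((p : ℚ) - 1) := by
  have h0 : (0 : ℚ) < s := by exact_mod_cast s_pos hp hv
  have hp' : (2 : ℚ) ≤ p := by exact_mod_cast hp
  rw [div_le_div_iff₀ h0 (by linarith)]
  have h := s_ge hp ha hv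
  have h1 : (((p : ℤ) ^ a * ((p : ℤ) - 1) : ℤ) : ℚ) ≤ ((s * p : ℤ) : ℚ) := by exact_mod_cast h
  push_cast at h1
  linarith

include hp ha hv in
theorem f_ge : (p : ℚ) ^ 2 / ((p : ℚ) ^ 2 - p + 1) ≤ (p : ℚ) ^ a / s := by
  have h0 : (0 : ℚ) < s := by exact_mod_cast s_pos hp hv
  have hp' : (2 : ℚ) ≤ p := by exact_mod_cast hp
  rw [div_le_div_iff₀ (by nlinarith) h0]
  have h := s_le hp ha hv
  have h1 : (((s : ℤ) * (p : ℤ) ^ 2 : ℤ) : ℚ) ≤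
      (((p : ℤ) ^ a * ((p : ℤ) ^ 2 - p + 1) : ℤ) : ℚ) := by exact_mod_cast h
  push_cast at h1
  linarith

include hp hv in
theorem e_eq : (p : ℚ) ^ a / s * (p / (p + 1)) = (p : ℚ) ^ (a + 1) / ((p : ℚ) ^ (a + 1) + (-1) ^ a) := by
  have h0 : (0 : ℚ) < s := by exact_mod_cast s_pos hp hv
  have h1 : (0 : ℚ) < (p : ℚ) + 1 := by positivity
  have h2 : ((((p : ℤ) + 1) * (s : ℤ) : ℤ) : ℚ) = (((p : ℤ) ^ (a + 1) + (-1) ^ a : ℤ) : ℚ) := by
    rw [hv]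
  push_cast at h2
  rw [← h2, div_mul_div_comm, ← pow_succ, mul_comm (s : ℚ)]

theorem e_bounds {y : ℕ} (hy : 2 ≤ y) (hyp : y ≤ p ^ (a + 1)) :
    (1 : ℚ) - 1 / y ≤ (p : ℚ) ^ (a + 1) / ((p : ℚ) ^ (a + 1) + (-1) ^ a) ∧
      (p : ℚ) ^ (a + 1) / ((p : ℚ) ^ (a + 1) + (-1) ^ a) ≤ (y : ℚ) / (y - 1) := by
  have hy' : (2 : ℚ) ≤ y := by exact_mod_cast hy
  have hX : (y : ℚ) ≤ (p : ℚ) ^ (a + 1) := by exact_mod_cast hyp
  set X : ℚ := (p : ℚ) ^ (a + 1) with hXd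
  have h1 : (1 : ℚ) - 1 / y = (y - 1) / y := by
    rw [sub_div, div_self (by linarith)]
  rw [h1]
  rcases neg_one_pow_eq_or ℚ a with h | h <;> rw [h]
  · constructor
    · rw [div_le_div_iff₀ (by linarith) (by linarith)]
      nlinarith
    · rw [div_le_div_iff₀ (by linarith) (by linarith)]
      nlinarith
  · constructor
    · rw [div_le_div_iff₀ (by linarith) (by linarith)]
      nlinarith
    · rw [div_le_div_iff₀ (by linarith) (by linarith)]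
      nlinarith

end

theorem ratio_mono {p y : ℕ} (hy : 2 ≤ y) (h : y ≤ p) : (p : ℚ) / ((p : ℚ) - 1) ≤ y / (y - 1) := by
  have hy' : (2 : ℚ) ≤ y := by exact_mod_cast hy
  have h' : (y : ℚ) ≤ p := by exact_mod_cast h
  rw [div_le_div_iff₀ (by linarith) (by linarith)]
  nlinarith

end Pool.Agent.Helper73.AltS
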