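import Pool.Agent.Helper73.AltS.Loc

/-!
# The ordinary step

The primes are distributed among three sets: `F` (prime and power known), `E` (prime known), `G`.
-/

namespace Pool.Agent.Helper73.AltS

open Finset

/-- `P` is the disjoint union of `E`, `F`, `G` -/
structure Part (P E F G : Finset ℕ) : Prop where
  ef : Disjoint E F
  eg : Disjoint E G
  fg : Disjoint F G
  un : E ∪ F ∪ G = P

/-- the denominator -/
def DD (a : ℕ → ℕ) (E F : Finset ℕ) : ℕ := (∏ p ∈ F, p ^ a p) * ∏ p ∈ E, (p + 1)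

/-- the numerator -/
def NN (k : ℕ) (s : ℕ → ℕ) (E F : Finset ℕ) : ℕ := k * (∏ p ∈ F, s p) * ∏ p ∈ E, p

/-- the product over the unknown part -/
def RR (a s : ℕ → ℕ) (E G : Finset ℕ) : ℚ :=
  (∏ p ∈ E, ((p : ℚ) ^ a p / s p * ((p : ℚ) / (p + 1)))) * ∏ p ∈ G, (p : ℚ) ^ a p / s p

variable {P E F G : Finset ℕ} {a s : ℕ → ℕ} {k : ℕ}

theorem Part.memE (h : Part P E F G) {p : ℕ} (hp : p ∈ E) : p ∈ P := by
  rw [← h.un]
  exact mem_union_left _ (mem_union_left _ hp)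

theorem Part.memF (h : Part P E F G) {p : ℕ} (hp : p ∈ F) : p ∈ P := by
  rw [← h.un]
  exact mem_union_left _ (mem_union_right _ hp)

theorem Part.memG (h : Part P E F G) {p : ℕ} (hp : p ∈ G) : p ∈ P := by
  rw [← h.un]
  exact mem_union_right _ hp

theorem Part.disj (h : Part P E F G) : Disjoint (E ∪ F) G :=
  disjoint_union_left.2 ⟨h.eg, h.fg⟩

theorem Part.prod {M : Type*} [CommMonoid M] (h : Part P E F G) (g : ℕ → M) :
    ∏ p ∈ P, g p = (∏ p ∈ E, g p) * (∏ p ∈ F, g p) * ∏ p ∈ G, g p := by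
  rw [← h.un, prod_union h.disj, prod_union h.ef]

theorem Part.card (h : Part P E F G) : #E + #F + #G = #P := by
  rw [← h.un, card_union_of_disjoint h.disj, card_union_of_disjoint h.ef]

theorem DD_pos (h : Dat P a s k) (hP : Part P E F G) : 0 < DD a E F := by
  unfold DD
  refine Nat.mul_pos (prod_pos fun p hp => ?_) (prod_pos fun p _ => Nat.succ_pos p)
  exact Nat.pow_pos (h.prime p (hP.memF hp)).pos

theorem quot (h : Dat P a s k) (hP : Part P E F G) :
    ((NN k s E F : ℕ) : ℚ) / ((DD a E F : ℕ) : ℚ) = RR a s E G := by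
  have hspos : ∀ p ∈ P, (0 : ℚ) < (s p : ℚ) := fun p hp => by
    exact_mod_cast s_pos (h.prime p hp).two_le (h.val p hp)
  have hSE : (∏ p ∈ E, (s p : ℚ)) ≠ 0 :=
    prod_ne_zero_iff.2 fun p hp => (hspos p (hP.memE hp)).ne'
  have hSG : (∏ p ∈ G, (s p : ℚ)) ≠ 0 :=
    prod_ne_zero_iff.2 fun p hp => (hspos p (hP.memG hp)).ne'
  have hQE : (∏ p ∈ E, ((p : ℚ) + 1)) ≠ 0 :=
    prod_ne_zero_iff.2 fun p _ => by positivity
  have hAF : (∏ p ∈ F, (p : ℚ) ^ a p) ≠ 0 :=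
    prod_ne_zero_iff.2 fun p hp => pow_ne_zero _ (by
      exact_mod_cast (h.prime p (hP.memF hp)).ne_zero)
  have heq : (k : ℚ) * ((∏ p ∈ E, (s p : ℚ)) * (∏ p ∈ F, (s p : ℚ)) * ∏ p ∈ G, (s p : ℚ)) =
      (∏ p ∈ E, (p : ℚ) ^ a p) * (∏ p ∈ F, (p : ℚ) ^ a p) * ∏ p ∈ G, (p : ℚ) ^ a p := by
    have h1 := h.eq
    rw [hP.prod, hP.prod] at h1
    have h2 := congrArg (Nat.cast : ℕ → ℚ) h1
    push_cast at h2
    exact h2
  unfold RR NN DD
  rw [prod_mul_distrib, prod_div_distrib, prod_div_distrib, prod_div_distrib]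
  push_cast
  rw [div_mul_div_comm, div_mul_div_comm, div_eq_div_iff (mul_ne_zero hAF hQE)
    (mul_ne_zero (mul_ne_zero hSE hQE) hSG)]
  linear_combination (∏ p ∈ E, (p : ℚ)) * (∏ p ∈ E, ((p : ℚ) + 1)) * heq

theorem RR_ge (h : Dat P a s k) (hP : Part P E F G) {y : ℕ} (hy : 2 ≤ y)
    (hE : ∀ p ∈ E, y ≤ p ^ (a p + 1)) :
    (1 - 1 / (y : ℚ)) ^ (#E + #G) ≤ RR a s E G := by
  have hy' : (2 : ℚ) ≤ y := by exact_mod_cast hy
  have h0 : (0 : ℚ) ≤ 1 - 1 / y := by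
    rw [sub_nonneg, div_le_one (by linarith)]
    linarith
  have h1 : (1 : ℚ) - 1 / y ≤ 1 := by
    have : (0 : ℚ) ≤ 1 / y := by positivity
    linarith
  unfold RR
  rw [pow_add, ← prod_const, ← prod_const]
  refine mul_le_mul (prod_le_prod (fun _ _ => h0) fun p hp => ?_)
    (prod_le_prod (fun _ _ => h0) fun p hp => ?_) (prod_nonneg fun _ _ => h0)
    (prod_nonneg fun p hp => ?_)
  · have hpP := hP.memE hp
    rw [e_eq (h.prime p hpP).two_le (h.val p hpP)]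
    exact (e_bounds hy (hE p hp)).1
  · have hpP := hP.memG hp
    exact h1.trans (f_gt (h.prime p hpP).two_le (h.one_le p hpP) (h.val p hpP)).le
  · positivity

theorem RR_le (h : Dat P a s k) (hP : Part P E F G) {y : ℕ} (hy : 2 ≤ y)
    (hG : ∀ p ∈ G, y ≤ p) (hE : ∀ p ∈ E, y ≤ p ^ (a p + 1)) :
    RR a s E G ≤ ((y : ℚ) / (y - 1)) ^ (#E + #G) := by
  have hy' : (2 : ℚ) ≤ y := by exact_mod_cast hy
  have h0 : (0 : ℚ) ≤ (y : ℚ) / (y - 1) := div_nonneg (by linarith) (by linarith)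
  unfold RR
  rw [pow_add, ← prod_const, ← prod_const]
  refine mul_le_mul (prod_le_prod (fun p _ => by positivity) fun p hp => ?_)
    (prod_le_prod (fun p _ => by positivity) fun p hp => ?_)
    (prod_nonneg fun p hp => by positivity)
    (prod_nonneg fun p hp => h0)
  · have hpP := hP.memE hp
    rw [e_eq (h.prime p hpP).two_le (h.val p hpP)]
    exact (e_bounds hy (hE p hp)).2
  · have hpP := hP.memG hp
    exact (f_le (h.prime p hpP).two_le (h.one_le p hpP) (h.val p hpP)).trans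
      (ratio_mono hy (hG p hp))

/-- the ordinary step -/
theorem step (h : Dat P a s k) (hP : Part P E F G) {y : ℕ} (hy : 2 ≤ y)
    (hG : ∀ p ∈ G, y ≤ p) (hE : ∀ p ∈ E, y ≤ p ^ (a p + 1)) (hne : NN k s E F ≠ DD a E F) :
    y ≤ 2 * #P * DD a E F := by
  obtain ⟨r, hr⟩ : ∃ r, r = #P := ⟨_, rfl⟩
  obtain ⟨m, hm⟩ : ∃ m, m = #E + #G := ⟨_, rfl⟩
  obtain ⟨D, hD⟩ : ∃ D, D = DD a E F := ⟨_, rfl⟩
  obtain ⟨N, hN⟩ : ∃ N, N = NN k s E F := ⟨_, rfl⟩
  have hmr : m ≤ r := by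
    have := hP.card
    omega
  have hD0 : 0 < D := by rw [hD]; exact DD_pos h hP
  rw [← hr, ← hD]
  by_contra hcon
  have hcon' : 2 * r * D < y := not_le.1 hcon
  have hry : r < y := by nlinarith
  have h1 := RR_ge h hP hy hE
  have h2 := RR_le h hP hy hG hE
  rw [← quot h hP, ← hm, ← hD, ← hN] at h1 h2
  rw [← hN, ← hD] at hne
  have hy' : (2 : ℚ) ≤ y := by exact_mod_cast hy
  have hDq : (0 : ℚ) < D := by exact_mod_cast hD0
  have hmr' : (m : ℚ) ≤ r := by exact_mod_cast hmr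
  have hry' : (r : ℚ) < y := by exact_mod_cast hry
  have hbig : 2 * (r : ℚ) * D < y := by exact_mod_cast hcon'
  -- Bernoulli
  have hB : 1 - (r : ℚ) / y ≤ (1 - 1 / (y : ℚ)) ^ m := by
    have hb := one_add_mul_le_pow (a := -(1 / (y : ℚ))) (by
      have : 1 / (y : ℚ) ≤ 1 := by
        rw [div_le_one (by linarith)]
        linarith
      linarith) m
    have hb2 : 1 + (m : ℚ) * -(1 / (y : ℚ)) = 1 - (m : ℚ) / y := by ring
    rw [hb2, ← sub_eq_add_neg] at hb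
    refine le_trans ?_ hb
    have : (m : ℚ) / y ≤ r / y := div_le_div_of_nonneg_right hmr' (by linarith)
    linarith
  rcases lt_or_gt_of_ne hne with hlt | hgt
  · -- N < D
    have h3 : 1 - (r : ℚ) / y ≤ N / D := hB.trans h1
    have h4 : (N : ℚ) + 1 ≤ D := by exact_mod_cast hlt
    have h5 : (N : ℚ) / D ≤ 1 - 1 / D := by
      rw [div_le_iff₀ hDq, sub_mul, one_mul, one_div, inv_mul_cancel₀ hDq.ne']
      linarith
    have h6 : 1 / (D : ℚ) ≤ r / y := by linarith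
    rw [div_le_div_iff₀ hDq (by linarith), one_mul] at h6
    nlinarith
  · -- D < N
    have h4 : (D : ℚ) + 1 ≤ N := by exact_mod_cast hgt
    have h5 : 1 + 1 / (D : ℚ) ≤ N / D := by
      rw [le_div_iff₀ hDq, add_mul, one_mul, one_div, inv_mul_cancel₀ hDq.ne']
      linarith
    have h6 : ((y : ℚ) / (y - 1)) ^ m * (1 - 1 / (y : ℚ)) ^ m = 1 := by
      rw [← mul_pow]
      have h7 : (y : ℚ) / (y - 1) * (1 - 1 / (y : ℚ)) = 1 := by
        have h8 : (y : ℚ) ≠ 0 := by linarith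
        have h9 : (y : ℚ) - 1 ≠ 0 := by linarith
        field_simp
      rw [h7, one_pow]
    have h7 : (0 : ℚ) ≤ 1 - (r : ℚ) / y := by
      rw [sub_nonneg, div_le_one (by linarith)]
      exact hry'.le
    have h8 : (1 + 1 / (D : ℚ)) * (1 - (r : ℚ) / y) ≤ 1 := by
      refine le_trans (mul_le_mul (h5.trans h2) hB h7 ?_) h6.le
      exact pow_nonneg (div_nonneg (by linarith) (by linarith)) _
    have h9 : (1 + 1 / (D : ℚ)) * (1 - (r : ℚ) / y) = ((D + 1) * (y - r)) / (D * y) := by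
      have h10 : (y : ℚ) ≠ 0 := by linarith
      field_simp
    rw [h9, div_le_one (by positivity)] at h8
    have hD1 : (1 : ℚ) ≤ D := by exact_mod_cast hD0
    have hr0 : (0 : ℚ) ≤ r := Nat.cast_nonneg r
    nlinarith

end Pool.Agent.Helper73.AltS
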